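import Pool.Agent.P.MP_0c5c88_lc.T.Cond

set_option autoImplicit false

/-! Amalgamation along rows, reductions, and adding blocks. -/

namespace Pool.Agent.P.MP_0c5c88_lc.T

/-- the coordinates promised by `c` -/
def Men (c : C) : Set Co := {x | ∃ d : Co, ∃ α ∈ (c d).F1, x = xc α}

theorem finite_F1 (c : C) : {d | (c d).F1.Nonempty}.Finite :=
  c.hasFiniteSupport.subset fun d hd h => by simp [h] at hd

theorem finite_Men (c : C) : (Men c).Finite := by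
  refine ((finite_F1 c).biUnion fun d _ => ((c d).F1.finite_toSet.image xc)).subset ?_
  rintro _ ⟨d, α, h, rfl⟩
  exact Set.mem_biUnion (show d ∈ {d | (c d).F1.Nonempty} from ⟨α, h⟩) ⟨α, h, rfl⟩

theorem row_amal {c e : C} {α : Row} {n m0 m' : ℕ} {a0 : Row × Z} (u : Finset ℕ)
    (hc : leR ⊤ ⊤ c c) (he : leR ⊤ α e c) (hn : 0 < n) (h1 : ∀ x ∈ Men c, (c x).t ≤ n)
    (h2 : (c (xc a0)).t ≤ n) (h3 : ∀ d, (c d).F1.Nonempty → n ≤ (c d).t) (hα : α ≤ a0.1)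
    (hm : n ≤ m0) (hk : u = ∅ ∨ ∀ d : Co, d.rnd < ⊤ → d.row < α → a0 ∈ (c d).F1 →
      (∀ m, m0 ≤ m → m < m' → ¬ Rd (e (kc d.z)) m true) ∨
        ∃ a1 ∈ (c d).F1, a1.1 < α ∧ ∀ m ∈ u, ¬ Rd (e (xc a1)) m false) :
    ∃ g, leR ⊤ ⊤ g c ∧ leR ⊤ α g e ∧ m' ≤ (g (xc a0)).t ∧
      (∀ m, m0 ≤ m → m < m' → (m ∈ (g (xc a0)).y ↔ m ∈ u)) ∧
      ∀ d : Co, α ≤ d.row → d.lam ≠ la → g d = c d := by
  classical
  obtain ⟨N, hN⟩ := exists_bound e
  obtain ⟨c1, k1, k2, k3⟩ := exists_pext hc ((finite_Men c).insert (xc a0))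
    (fun _ => max N m') fun d => if d = xc a0 then u.filter fun m => m0 ≤ m ∧ m < m' else ∅
  obtain ⟨g, hg⟩ := exists_cond (fun d => if d.row < α then addF (e d) (c d) else c1 d)
    (e.hasFiniteSupport.union (c.hasFiniteSupport.union c1.hasFiniteSupport)) fun d hd => by
      simp only [Set.mem_union, Function.mem_support, not_or, not_not] at hd
      simp [hd, addF_zero]
  have g1 : ∀ d, d.row < α → g d = addF (e d) (c d) := fun d hd => by rw [hg, if_pos hd]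
  have g2 : ∀ d, α ≤ d.row → g d = c1 d := fun d hd => by rw [hg, if_neg hd.not_gt]
  have g3 : leR ⊤ α g e := leR_of_soft fun d d1 d2 => by
    rw [g1 d d2]
    exact ⟨(he.val d1 d2).addF (hc.val d1 (d2.trans_le le_top)), soft_addF _ _ _, subset_rfl⟩
  have g4 : g (xc a0) = pext (c (xc a0)) (max N m') (u.filter fun m => m0 ≤ m ∧ m < m') := by
    rw [g2 _ hα, k2 _ (Set.mem_insert _ _), if_pos rfl]
  refine ⟨g, leR_iff.2 fun d d1 d2 => ?_, g3, by rw [g4]; simp, fun m m1 m2 => ?_,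
    fun d d1 d2 => (g2 d d1).trans (k3 d ?_)⟩
  · rcases lt_or_ge d.row α with hd | hd
    · refine ⟨g3.val d1 hd, ((g3.trans he).ext d1 hd).upgrade fun a a1 a2 a3 => ?_⟩
      rw [g1 d hd]
      refine ⟨mem_addF1.2 (Or.inr a1), fun B b1 b2 => ?_⟩
      have hnew := (he.ext d1 hd).2 B b1 b2
      have hnt := h3 d ⟨a, a1⟩
      have hB : B.2 ≤ N := ((he.val d1 hd).blk B b1).2.trans (hN d)
      have hx : xc a ∈ Men c := ⟨d, a, a1, rfl⟩
      have hlo : lo d g e := g3.mono le_top hd.le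
      have hgx := (g2 (xc a) a2).trans (k2 _ (Set.mem_insert_of_mem _ hx))
      have ht : N ≤ (g (xc a)).t := by rw [hgx]; simp
      have hs := hnt.trans hnew.start
      have hzero : (∀ k, B.1 ≤ k → k ∉ (g (xc a)).y) →
          Match (lo d) g d.lam (Vn (g (xc a))) B.1 B.2 (addF (e d) (c d)).y := fun h =>
        (((hnew.good (hn.trans_le hnt)).zero_match).transfer (isRel_lo d) hlo
          (fun _ _ h => h) fun _ _ => Iff.rfl).of_zero (hB.trans ht) fun k q1 _ => h k q1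
      by_cases hx0 : xc a = xc a0
      · rw [if_pos hx0] at hgx
        have hy : ∀ k, B.1 ≤ k → k ∈ (g (xc a)).y → k ∈ u ∧ m0 ≤ k ∧ k < m' := fun k q1 q2 => by
          rw [hgx, mem_pext ((h1 _ hx).trans (hs.trans q1))] at q2
          exact Finset.mem_filter.1 q2
        rcases hk with hk | hk
        · exact hzero fun k q1 q2 => Finset.notMem_empty k (hk ▸ (hy k q1 q2).1)
        rcases hk d d1 hd (xc_inj hx0 ▸ a1) with hk | ⟨b, j1, j2, j3⟩
        · obtain ⟨m, m1, m2, m3, m4, m5⟩ := hnew.good (hn.trans_le hnt)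
          rcases lt_or_ge m m0 with q | q
          · refine ((m4.transfer (isRel_lo d) hlo (fun _ _ h => h) fun _ _ => Iff.rfl).of_zero
              (m2.trans (hB.trans ht)) fun k q1 q2 q3 => ?_).imp (fun _ _ h => h)
              (fun _ _ _ _ h => h) le_rfl m2 fun _ _ _ => Iff.rfl
            have := (hy k q1 q3).2
            omega
          · have q' : m' ≤ m := not_lt.1 fun h => hk m q h m3
            refine ((m5.transfer (isRel_lo d) hlo (fun _ _ h => h) fun _ _ => Iff.rfl).of_zero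
              (hB.trans ht) fun k q1 q2 q3 => ?_).imp (fun _ _ h => h)
              (fun _ _ _ _ h => h) m1 le_rfl fun _ _ _ => Iff.rfl
            have := (hy k (m1.trans q1) q3).2
            omega
        · exact (hnew.m1 b j1 j2).imp (fun _ _ h => h.mono (isRel_lo d) hlo)
            (fun k v q1 q2 q3 => ⟨q3.1, q2.trans_le (hB.trans ht),
              iff_of_false (fun h => j3 k (hy k q1 h).1 q3.2) Bool.false_ne_true⟩)
            le_rfl le_rfl fun _ _ _ => Iff.rfl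
      · rw [if_neg hx0] at hgx
        refine hzero fun k q1 => ?_
        rw [hgx, mem_pext ((h1 _ hx).trans (hs.trans q1))]
        simp
    · rw [g2 d hd]
      refine ⟨k1.val d1 d2, Ext.of_soft (k1.soft d1 d2) ?_⟩
      by_cases h : d ∈ insert (xc a0) (Men c)
      · rw [k2 d h]; exact subset_rfl
      · rw [k3 d h]
  · rw [g4, mem_pext (h2.trans (hm.trans m1))]
    simp [m1, m2]
  · rintro (rfl | ⟨_, _, -, rfl⟩) <;> exact d2 rfl

theorem normalize {c : C} (hc : leR ⊤ ⊤ c c) (n0 : ℕ) : ∃ n, n0 ≤ n ∧ 0 < n ∧ ∃ c', leR ⊤ ⊤ c' c ∧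
    (∀ d, (c' d).t ≤ n) ∧ ∀ d, (c' d).F1.Nonempty → n ≤ (c' d).t := by
  obtain ⟨N, hN⟩ := exists_bound c
  obtain ⟨c', h1, h2, h3⟩ := exists_pext hc (finite_F1 c) (fun _ => max n0 N + 1) fun _ => ∅
  refine ⟨max n0 N + 1, by omega, by omega, c', h1, fun d => ?_, fun d hd => ?_⟩
  · have := hN d
    by_cases h : d ∈ {d | (c d).F1.Nonempty}
    · rw [h2 d h, pext_t]; omega
    · rw [h3 d h]; omega
  · by_cases h : d ∈ {d | (c d).F1.Nonempty}
    · rw [h2 d h, pext_t]; omega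
    · rw [h3 d h] at hd; exact absurd hd h

/-- every condition has an extension that is its own reduction at every level -/
theorem reduction {c : C} (hc : leR ⊤ ⊤ c c) : ∃ c', leR ⊤ ⊤ c' c ∧
    ∀ r β e, leR r β e c' → ∃ g, leR ⊤ ⊤ g c' ∧ leR r β g e := by
  obtain ⟨n, -, h0, c', h1, h2, h3⟩ := normalize hc 0
  refine ⟨c', h1, fun r β e he => ?_⟩
  obtain ⟨e', g1, g2, -, -⟩ := glue (h1.refl.mono le_rfl (le_top (a := β))) he
  obtain ⟨g, k1, k2, -, -⟩ := row_amal (a0 := (⊤, Classical.arbitrary Z)) (m0 := n) (m' := n)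
    ∅ h1.refl g1 h0 (fun x _ => h2 x) (h2 _) h3 le_top le_rfl (Or.inl rfl)
  exact ⟨g, k1, (k2.mono le_top le_rfl).trans g2⟩

/-- `g` lives at level `(r, β)` -/
def Within (r : Rnd) (β : Row) (g : C) : Prop := ∀ d : Co, d.rnd < ⊤ → d.row < ⊤ →
  (g d ≠ 0 → d.rnd < r ∧ d.row < β) ∧ ∀ α ∈ (g d).F1, α.1 < ⊤ → α.1 < β

theorem Within.mono {r r' : Rnd} {β β' : Row} {g : C} (h : Within r β g) (h1 : r ≤ r')
    (h2 : β ≤ β') : Within r' β' g := fun d d1 d2 =>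
  ⟨fun h0 => ⟨((h d d1 d2).1 h0).1.trans_le h1, ((h d d1 d2).1 h0).2.trans_le h2⟩,
    fun α a1 a2 => ((h d d1 d2).2 α a1 a2).trans_le h2⟩

theorem le_of_within {r : Rnd} {β : Row} {c g : C} (hc : leR ⊤ ⊤ c c) (h : leR r β c g)
    (hg : Within r β g) : leR ⊤ ⊤ c g := by
  refine leR_iff.2 fun d d1 d2 => ⟨hc.val d1 d2, ?_⟩
  by_cases h0 : g d = 0
  · rw [h0]; exact Ext.zero _ _ _ _ _
  · obtain ⟨g1, g2⟩ := (hg d d1 d2).1 h0
    exact (h.ext g1 g2).upgrade fun α a1 a2 a3 => absurd ((hg d d1 d2).2 α a1 a3) a2.not_gt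

theorem trunc {r : Rnd} {β : Row} {e : C} (he : leR r β e e) :
    ∃ c, leR ⊤ ⊤ c c ∧ ∀ d : Co, d.rnd < r → d.row < β → c d = e d := by
  classical
  obtain ⟨c, hc⟩ := exists_cond2 e e (fun d => if d.rnd < r ∧ d.row < β then e d else 0)
    fun d h _ => by simp [h]
  refine ⟨c, leR_of_soft fun d _ _ => ⟨?_, Soft.refl _ _, subset_rfl⟩,
    fun d d1 d2 => by rw [hc, if_pos ⟨d1, d2⟩]⟩
  rw [hc]
  split_ifs with h
  · exact he.val h.1 h.2
  · exact Val.zero _ _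

theorem Dec.exists_le {r : Rnd} {β : Row} {e : C} {ν : Lam} {n : ℕ} {v : V} (he : leR ⊤ ⊤ e e)
    (h : Dec (leR r β) e ν n v) : ∃ e', leR ⊤ ⊤ e' e ∧ ∃ g, (g, n, v) ∈ nm ν ∧ leR r β e' g := by
  obtain ⟨c, h1, h2⟩ := reduction he
  obtain ⟨e2, h3, g, h4, h5⟩ := h c (h1.mono le_top le_top)
  obtain ⟨e', h6, h7⟩ := h2 r β e2 h3
  exact ⟨e', h6.trans h1, g, h4, h7.trans h5⟩

/-- the name coded by `ν` is total -/
def TotV (l : C → C → Prop) (ν : Lam) : Prop :=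
  ∀ e, l e e → ∀ n, ∃ e', l e' e ∧ ∃ g v, (g, n, v) ∈ nm ν ∧ l e' g

theorem TotV.exists_dec {r : Rnd} {β : Row} {e : C} {ν : Lam} (h : TotV (leR r β) ν)
    (he : leR ⊤ ⊤ e e) (n : ℕ) : ∃ e', leR ⊤ ⊤ e' e ∧ ∃ v, Dec (leR r β) e' ν n v := by
  obtain ⟨c, h1, h2⟩ := reduction he
  obtain ⟨e2, h3, g, v, h4, h5⟩ := h c (h1.refl.mono le_top le_top) n
  obtain ⟨e', h6, h7⟩ := h2 r β e2 h3
  exact ⟨e', h6.trans h1, v, Dec.of_mem (isRel_leR _ _) h4 (h7.trans h5)⟩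

theorem Tot.exists_dec {r : Rnd} {β : Row} {e : C} {ν : Lam} (h : Tot (leR r β) ν)
    (he : leR ⊤ ⊤ e e) (n : ℕ) : ∃ e', leR ⊤ ⊤ e' e ∧ ∃ b, Dec (leR r β) e' ν n (bv b) := by
  obtain ⟨c, h1, h2⟩ := reduction he
  obtain ⟨e2, h3, g, v, h4, h5⟩ := h c (h1.refl.mono le_top le_top) n
  obtain ⟨e', h6, h7⟩ := h2 r β e2 h3
  exact ⟨e', h6.trans h1, v, Dec.of_mem (isRel_leR _ _) h4 (h7.trans h5)⟩

section block
variable {d : Co}

/-- stable requirements on a block -/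
def Stab (d : Co) (R : C → ℕ → ℕ → Finset ℕ → Prop) : Prop :=
  ∀ e e' a b a' b' y y', R e a b y → leR d.rnd ⊤ e' e → a' ≤ a → b ≤ b' →
    (∀ n, a ≤ n → n < b → (n ∈ y' ↔ n ∈ y)) → R e' a' b' y'

/-- achievable requirements on a block -/
def Ach (R : C → ℕ → ℕ → Finset ℕ → Prop) : Prop :=
  ∀ e, leR ⊤ ⊤ e e → ∀ a, ∃ e', leR ⊤ ⊤ e' e ∧ ∃ b, a ≤ b ∧ ∃ w, R e' a b w

theorem Stab.and {R R' : C → ℕ → ℕ → Finset ℕ → Prop} (h : Stab d R) (h' : Stab d R') :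
    Stab d fun e a b y => R e a b y ∧ R' e a b y := fun e e' a b a' b' y y' g g1 g2 g3 g4 =>
  ⟨h e e' a b a' b' y y' g.1 g1 g2 g3 g4, h' e e' a b a' b' y y' g.2 g1 g2 g3 g4⟩

theorem Stab.forall {ι : Type} {s : Set ι} {R : ι → C → ℕ → ℕ → Finset ℕ → Prop}
    (h : ∀ i ∈ s, Stab d (R i)) : Stab d fun e a b y => ∀ i ∈ s, R i e a b y :=
  fun e e' a b a' b' y y' g g1 g2 g3 g4 i hi => h i hi e e' a b a' b' y y' (g i hi) g1 g2 g3 g4

theorem Ach.and {R R' : C → ℕ → ℕ → Finset ℕ → Prop} (h : Stab d R) (h' : Stab d R')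
    (g : Ach R) (g' : Ach R') : Ach fun e a b y => R e a b y ∧ R' e a b y := by
  intro e he a
  obtain ⟨e1, h1, b1, h2, w1, h3⟩ := g e he a
  obtain ⟨e2, k1, b2, k2, w2, k3⟩ := g' e1 h1.refl b1
  refine ⟨e2, k1.trans h1, b2, h2.trans k2, w1.filter (· < b1) ∪ w2.filter (b1 ≤ ·),
    h _ _ _ _ _ _ _ _ h3 (k1.mono le_top le_rfl) le_rfl k2 fun n _ n2 => by simp [n2, n2.not_ge],
    h' _ _ _ _ _ _ _ _ k3 (k1.refl.mono le_top le_rfl) h2 le_rfl
      fun n n1 _ => by simp [n1, n1.not_gt]⟩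

theorem Ach.forall {ι : Type} {s : Set ι} (hs : s.Finite) {R : ι → C → ℕ → ℕ → Finset ℕ → Prop}
    (h : ∀ i ∈ s, Stab d (R i)) (g : ∀ i ∈ s, Ach (R i)) :
    Ach fun e a b y => ∀ i ∈ s, R i e a b y := by
  induction s, hs using Set.Finite.induction_on with
  | empty => exact fun e he a => ⟨e, he, a, le_rfl, ∅, fun _ h => h.elim⟩
  | insert _ _ ih =>
    have := Ach.and (h _ (Set.mem_insert _ _))
      (Stab.forall fun i hi => h i (Set.mem_insert_of_mem _ hi)) (g _ (Set.mem_insert _ _))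
      (ih (fun i hi => h i (Set.mem_insert_of_mem _ hi))
        fun i hi => g i (Set.mem_insert_of_mem _ hi))
    simpa only [Set.forall_mem_insert] using this

theorem stab_match {bt : C → ℕ → Bool → Prop}
    (h : ∀ e e' n β, leR d.rnd ⊤ e' e → bt e n β → bt e' n β) :
    Stab d fun e a b y => Match (lo d) e d.lam (bt e) a b y :=
  fun e e' _ _ _ _ _ _ g g1 g2 g3 g4 => g.imp
    (fun _ _ h => h.mono (isRel_lo d) (g1.mono le_rfl le_top)) (fun n β _ _ => h e e' n β g1)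
    g2 g3 g4

theorem ach_match (ht : TotV (lo d) d.lam) {bt : C → ℕ → Bool → Prop}
    (h : ∀ e e' n β, leR d.rnd ⊤ e' e → bt e n β → bt e' n β)
    (h' : ∀ e, leR ⊤ ⊤ e e → ∀ n, ∃ e', leR ⊤ ⊤ e' e ∧ ∃ β, bt e' n β) :
    Ach fun e a b y => Match (lo d) e d.lam (bt e) a b y := by
  classical
  intro e he a
  obtain ⟨e1, h1, ⟨b', u⟩, h2⟩ := ht.exists_dec he a
  have : ∀ k, ∃ e2, leR ⊤ ⊤ e2 e1 ∧ ∀ n < k, ∃ β, bt e2 n β := by
    intro k
    induction k with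
    | zero => exact ⟨e1, h1.refl, fun _ h => absurd h (Nat.not_lt_zero _)⟩
    | succ k ih =>
      obtain ⟨e2, g1, g2⟩ := ih
      obtain ⟨e3, g3, β, g4⟩ := h' e2 g1.refl k
      refine ⟨e3, g3.trans g1, fun n hn => ?_⟩
      rcases Nat.lt_succ_iff_lt_or_eq.1 hn with hn | rfl
      · obtain ⟨β, hβ⟩ := g2 n hn
        exact ⟨β, h _ _ _ _ (g3.mono le_top le_rfl) hβ⟩
      · exact ⟨β, g4⟩
  obtain ⟨e2, g1, g2⟩ := this b'
  choose! β hβ using g2
  refine ⟨e2, g1.trans h1, max a b', le_max_left _ _,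
    (Finset.range b').filter fun n => ¬ (n ∈ u ↔ β n = true), a, b', u, le_rfl, le_max_right _ _,
    h2.mono (isRel_lo d) (g1.mono le_top le_top), fun n _ n2 => ⟨β n, hβ n n2, ?_⟩⟩
  simp [n2]

theorem exists_rd {x : Co} {e : C} (he : leR ⊤ ⊤ e e) (n : ℕ) :
    ∃ e', leR ⊤ ⊤ e' e ∧ ∃ β, Rd (e' x) n β := by
  obtain ⟨e', h1, h2, -⟩ := exists_pext he (Set.finite_singleton x) (fun _ => n + 1) fun _ => ∅
  refine ⟨e', h1, decide (n ∈ (e' x).y), ?_, by simp⟩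
  rw [h2 x rfl, pext_t]
  omega

theorem ach_vn (ht : TotV (lo d) d.lam) {x : Row × Z} (hx : d.row ≤ x.1) :
    Ach fun e a b y => Match (lo d) e d.lam (Vn (e (xc x))) a b y := by
  intro e he a
  obtain ⟨n, n1, h0, c', h1, h2, h3⟩ := normalize he a
  obtain ⟨e2, g0, g, ⟨b', u⟩, g3, g4⟩ := ht c' (h1.refl.mono le_top le_top) n
  obtain ⟨e', g1, g2, -, -⟩ := glue (h1.refl.mono le_rfl (le_top (a := d.row))) g0
  obtain ⟨s, k1, k2, k3, k4, -⟩ := row_amal (a0 := x) (m0 := n) (m' := b')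
    ∅ h1.refl g1 h0 (fun x _ => h2 x) (h2 _) h3 hx le_rfl (Or.inl rfl)
  exact ⟨s, k1.trans h1, max a b', le_max_left _ _, u, n, b', u, n1, le_max_right _ _,
    Dec.of_mem (isRel_lo d) g3 (((k2.mono le_top le_rfl).trans g2).trans g4),
    fun m m1 m2 => ⟨false, ⟨rfl, m2.trans_le k3, by simpa using k4 m m1 m2⟩, by simp⟩⟩

theorem stab_good (h0 : ⊥ < d.rnd) : Stab d fun e a b y => Good (lo d) e d (a, b) y := by
  rintro e e' a b a' b' y y' ⟨m, m1, m2, m3, m4, m5⟩ g1 g2 g3 g4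
  have hz := stab_match (d := d) (bt := fun _ => zb) fun _ _ _ _ _ h => h
  exact ⟨m, g2.trans m1, m2.trans g3, m3.soft (g1.soft (d := kc d.z) h0 row_bot_lt),
    hz _ _ _ _ _ _ _ _ m4 g1 g2 le_rfl fun n n1 n2 => g4 n n1 (n2.trans_le m2),
    hz _ _ _ _ _ _ _ _ m5 g1 le_rfl g3 fun n n1 n2 => g4 n (m1.trans n1) n2⟩

theorem ach_good (h0 : ⊥ < d.rnd) (ht : TotV (lo d) d.lam) :
    Ach fun e a b y => Good (lo d) e d (a, b) y := by
  intro e he a
  have hz := stab_match (d := d) (bt := fun _ => zb) fun _ _ _ _ _ h => h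
  have hz' := ach_match ht (bt := fun _ => zb) (fun _ _ _ _ _ h => h)
    fun e he _ => ⟨e, he, false, rfl⟩
  obtain ⟨e1, h1, b1, h2, w1, h3⟩ := hz' e he a
  let m := max b1 (e1 (kc d.z)).t
  obtain ⟨e2, g1, g2, -⟩ := exists_pext h1.refl (Set.finite_singleton (kc d.z)) (fun _ => m + 1)
    fun _ => {m}
  obtain ⟨e3, k1, b2, k2, w2, k3⟩ := hz' e2 g1.refl m
  have hm : Rd (e2 (kc d.z)) m true := by
    rw [g2 _ rfl]
    exact ⟨by rw [pext_t]; omega, by rw [mem_pext (le_max_right _ _)]; simp [m]⟩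
  have hb : b1 ≤ m := le_max_left _ _
  refine ⟨e3, k1.trans (g1.trans h1), b2, h2.trans (hb.trans k2),
    w1.filter (· < m) ∪ w2.filter (m ≤ ·), m, h2.trans hb, k2,
    hm.soft (k1.soft (d := kc d.z) (h0.trans_le le_top) row_bot_lt),
    hz _ _ _ _ _ _ _ _ h3 ((k1.trans g1).mono le_top le_rfl) le_rfl hb fun n _ n2 => ?_,
    hz _ _ _ _ _ _ _ _ k3 (k1.refl.mono le_top le_rfl) le_rfl le_rfl
      fun n n1 _ => by simp [n1, n1.not_gt]⟩
  have := n2.trans_le hb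
  simp [this, this.not_ge]

theorem exists_block (h0 : ⊥ < d.rnd) (ht : TotV (lo d) d.lam) (h1 : d.rnd < ⊤) (h2 : d.row < ⊤)
    {c : C} (hc : leR ⊤ ⊤ c c) (k : ℕ) : ∃ c', leR ⊤ ⊤ c' c ∧ ∃ B ∈ (c' d).E, k ≤ B.1 := by
  classical
  have s0 : ∀ ν ∈ ((c d).F0 : Set Lam), Stab d fun e a b y =>
      Match (lo d) e d.lam (fun n β => Dec (lo d) e ν n (bv β)) a b y :=
    fun ν _ => stab_match fun _ _ _ _ g h => h.mono (isRel_lo d) (g.mono le_rfl le_top)
  have m1 : ∀ α : Row × Z, α.1 < ⊤ → ∀ (e e' : C) n β, leR d.rnd ⊤ e' e → Vn (e (xc α)) n β →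
      Vn (e' (xc α)) n β := fun α hα e e' n β g h => h.soft (g.soft (d := xc α) h0 hα)
  have s1 : ∀ α ∈ {α | α ∈ (c d).F1 ∧ α.1 < ⊤}, Stab d fun e a b y =>
      Match (lo d) e d.lam (Vn (e (xc α))) a b y := fun α hα => stab_match (m1 α hα.2)
  have hst := (stab_good h0).and ((Stab.forall s0).and (Stab.forall s1))
  obtain ⟨e, g1, b, g2, w, g3⟩ := Ach.and (stab_good h0) ((Stab.forall s0).and (Stab.forall s1))
    (ach_good h0 ht) (Ach.and (Stab.forall s0) (Stab.forall s1)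
      (Ach.forall (c d).F0.finite_toSet s0 fun ν hν => ach_match ht
        (fun _ _ _ _ g h => h.mono (isRel_lo d) (g.mono le_rfl le_top))
        fun e he n => ((hc.val h1 h2).tot ν hν).exists_dec he n)
      (Ach.forall ((c d).F1.finite_toSet.subset fun _ h => h.1) s1 fun α hα =>
        ach_vn ht ((hc.val h1 h2).f1 α hα.1).1.1)) c hc (max k (c d).t)
  obtain ⟨g, k1, k2, -, k4⟩ := glue (r0 := d.rnd) hc (g1.mono le_top le_rfl)
  let a : Y := ⟨max (c d).t b, (pext (c d) b w).y, insert (max k (c d).t, b) (c d).E, (c d).F0,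
    (c d).F1⟩
  have e1 : (g.update d a) d = a := by simp
  have e2 : ∀ d', d' ≠ d → (g.update d a) d' = g d' := fun d' h => by simp [h]
  have k5 : leR d.rnd ⊤ (g.update d a) e := k2.congr_left fun d' h _ =>
    e2 d' fun h' => absurd h (h' ▸ lt_irrefl _)
  refine ⟨g.update d a, leR.trans (leR_iff.2 fun d' d1 d2 => ?_) k1, (max k (c d).t, b),
    by rw [e1]; exact Finset.mem_insert_self _ _, le_max_left _ _⟩
  by_cases h : d' = d
  · subst h
    rw [e1, k4 _ le_rfl]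
    have hv := hc.val h1 h2
    have hs := soft_pext ⊤ (c d') b w
    refine ⟨⟨hv.tot, hv.f1, fun B hB => ⟨h0, ?_⟩⟩,
      ⟨hs.t, hs.y, Finset.subset_insert _ _, subset_rfl, fun _ h _ => h⟩, fun B b1 b2 => ?_⟩
    · rcases Finset.mem_insert.1 hB with rfl | hB
      · exact le_max_right _ _
      · exact (hv.blk B hB).2.trans (le_max_left _ _)
    · obtain rfl := (Finset.mem_insert.1 b1).resolve_right b2
      obtain ⟨q1, q2, q3⟩ := hst _ _ _ _ _ _ _ a.y g3 k5 le_rfl le_rfl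
        fun n n1 _ => mem_pext (N := b) ((le_max_right _ _).trans n1)
      exact ⟨le_max_right _ _, fun _ => q1, q2, fun α a1 a2 => q3 α ⟨a1, a2⟩⟩
  · rw [e2 d' h]
    exact ⟨k1.val d1 d2, Ext.refl⟩

end block

end Pool.Agent.P.MP_0c5c88_lc.T
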