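import Pool.Agent.P.MP_0c5c88_lc.T.Sem2
import Pool.Agent.P.MP_0c5c88_lc.T.Lim2

set_option autoImplicit false

/-! No meager-additive set contains the generic sets of uncountably many branches that split at
one node. -/

open Pool.Agent.Lib.PosetForcing Cardinal

namespace Pool.Agent.P.MP_0c5c88_lc.T

/-- the reals that miss `c` -/
noncomputable def perpN (c : Name PP) : Name PP :=
  sepName cN fun U a => ∀ m, Mod.mem m a → ¬ Mod.mem m (c.val U)

theorem mem_perpN (c : Name PP) (U : Gen PP) (a : Mod U) : Mod.mem a ((perpN c).val U) ↔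
    Mod.mem a (cN.val U) ∧ ∀ m, Mod.mem m a → ¬ Mod.mem m (c.val U) := mem_sepName _ _ U a

theorem perp_nwd {d : Co} (h1 : d.rnd < ⊤) (h2 : d.row < ⊤) (U : Gen PP) :
    Nwd Mod.mem (wN.val U) (cN.val U) ((perpN (rname d)).val U) := by
  refine nwd_of (fun q k s => ?_) U
  obtain ⟨c, g1, g2, -⟩ := exists_pext q.2 (Set.finite_singleton d)
    (fun _ => max k (q.1 d).t + 1) fun _ => {max k (q.1 d).t}
  have hm : Rd (c d) (max k (q.1 d).t) true := by
    rw [g2 _ rfl]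
    exact ⟨by rw [pext_t]; omega, by rw [mem_pext (le_max_right _ _)]; simp⟩
  refine ⟨⟨c, g1.refl⟩, g1, max k (q.1 d).t + 1, insert (max k (q.1 d).t) s, fun m hm => ?_,
    fun U hU z _ z2 z3 => ((mem_perpN _ U z).1 z3).2 _
      ((z2 _ (Nat.lt_succ_self _) (Nat.zero_le _)).2 (Finset.mem_insert_self _ _))
      ((forces_rd (s := ⟨c, g1.refl⟩) h1 h2 hm U hU).2 rfl)⟩
  rw [Finset.mem_insert]
  exact or_iff_right (by omega)

theorem perp_meager {d : Co} (h1 : d.rnd < ⊤) (h2 : d.row < ⊤) (p : PP) :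
    Forces p fun U => Meager Mod.mem (wN.val U) (cN.val U) ((perpN (rname d)).val U) :=
  meager_of (N := fun _ => perpN (rname d)) (fun _ => perp_nwd h1 h2)
    (Forces.of_forall (fun U z hz => ((mem_perpN _ U z).1 hz).1) p)
    fun _ q _ h => ⟨q, le_rfl, 0, h⟩

/-- the sum of two sets of reals -/
noncomputable def sumN (B A : Name PP) : Name PP :=
  sepName cN fun U z => ∃ x, Mod.mem x (B.val U) ∧ ∃ a, Mod.mem a (A.val U) ∧
    IsSum Mod.mem (wN.val U) z x a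

theorem mem_sumN (B A : Name PP) (U : Gen PP) (z : Mod U) : Mod.mem z ((sumN B A).val U) ↔
    Mod.mem z (cN.val U) ∧ ∃ x, Mod.mem x (B.val U) ∧ ∃ a, Mod.mem a (A.val U) ∧
      IsSum Mod.mem (wN.val U) z x a := mem_sepName _ _ U z

/-- the difference of two reals -/
noncomputable def difN (g c : Name PP) : Name PP :=
  sepName wN fun U m => Mod.mem m (g.val U) ∧ ¬ Mod.mem m (c.val U)

theorem mem_difN (g c : Name PP) (U : Gen PP) (m : Mod U) : Mod.mem m ((difN g c).val U) ↔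
    Mod.mem m (wN.val U) ∧ Mod.mem m (g.val U) ∧ ¬ Mod.mem m (c.val U) := mem_sepName _ _ U m

/-- the sum of two reals -/
noncomputable def addN (x a : Name PP) : Name PP :=
  sepName wN fun U m => ¬ (Mod.mem m (x.val U) ↔ Mod.mem m (a.val U))

theorem mem_addN (x a : Name PP) (U : Gen PP) (m : Mod U) : Mod.mem m ((addN x a).val U) ↔
    Mod.mem m (wN.val U) ∧ ¬ (Mod.mem m (x.val U) ↔ Mod.mem m (a.val U)) := mem_sepName _ _ U m

theorem addN_mem (x a : Name PP) (U : Gen PP) : Mod.mem ((addN x a).val U) (cN.val U) :=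
  mem_cN.2 fun m hm => ((mem_addN x a U m).1 hm).1

theorem addN_sum {x g c B : Name PP} {U : Gen PP} (h : Mod.mem (x.val U) (B.val U)) :
    Mod.mem ((addN x (difN g c)).val U) ((sumN B (perpN c)).val U) :=
  (mem_sumN _ _ U _).2 ⟨addN_mem _ _ U, _, h, (difN g c).val U, (mem_perpN _ U _).2
    ⟨mem_cN.2 fun m hm => ((mem_difN g c U m).1 hm).1,
      fun m hm => ((mem_difN g c U m).1 hm).2.2⟩,
    fun m hm => (mem_addN _ _ U m).trans (and_iff_right hm)⟩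

theorem add_promise {c : C} (hc : leR ⊤ ⊤ c c) (t c0 : Row × Z) (a0 : Row)
    (h : ∀ d : Co, d.row ≤ a0 → Ab d t → Ab d c0) : ∃ c', leR ⊤ ⊤ c' c ∧
      (∀ d, (c' d).t = (c d).t) ∧ (∀ d, (c' d).F1.Nonempty → (c d).F1.Nonempty) ∧
      ∀ d : Co, d.row ≤ a0 → t ∈ (c' d).F1 → c0 ∈ (c' d).F1 := by
  classical
  obtain ⟨g, hg⟩ := exists_cond2 c c (fun d => if d.row ≤ a0 ∧ t ∈ (c d).F1 then
    addF (c d) ⟨0, ∅, ∅, ∅, {c0}⟩ else c d) fun d h _ => by simp [h]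
  refine ⟨g, leR_of_soft fun d d1 d2 => ?_, fun d => ?_, fun d => ?_, fun d d1 => ?_⟩
  all_goals rw [hg]; split_ifs with k
  · obtain ⟨k1, k2⟩ := (hc.val d1 d2).f1 t k.2
    exact ⟨(hc.val d1 d2).addF ⟨fun _ h => absurd h (Finset.notMem_empty _),
      fun _ h' => ⟨Finset.mem_singleton.1 h' ▸ h d k.1 k1, k2⟩,
      fun _ h => absurd h (Finset.notMem_empty _)⟩, soft_addF _ _ _, subset_rfl⟩
  · exact ⟨hc.val d1 d2, Soft.refl _ _, subset_rfl⟩
  · rfl
  · rfl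
  · exact fun _ => ⟨t, k.2⟩
  · exact id
  · exact fun _ => mem_addF1.2 (Or.inr (Finset.mem_singleton_self _))
  · exact fun h' => absurd ⟨d1, h'⟩ k

theorem big {ι : Type} {I : Set ι} (hI : ¬ I.Countable) {F : ι → Row → Lam} {a0 : Row}
    (ha0 : a0 < ⊤) {s : Row → Lam} (hs : ∀ i ∈ I, ∀ b < a0, F i b = s b)
    (hζ : Set.InjOn (fun i => F i a0) I) (A : Name PP) (c : ι → PP)
    (hc : ∀ i ∈ I, Forces (c i) fun U =>
      MAdd Mod.mem (wN.val U) (cN.val U) (A.val U) ∧ IsSub Mod.mem ((XN (F i)).val U) (A.val U)) :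
    False := by
  classical
  let c0 : Row × Z := (a0, nd s ⟨a0, ha0⟩)
  obtain ⟨N, N1, N2⟩ := meager_code (sumN A (perpN (rname (xc c0))))
  obtain ⟨ν, n1, n2⟩ := exists_code (W := Works N) (works_dense N1)
  obtain ⟨r0, α0, -, w1, w3⟩ := exists_within n2
  obtain ⟨α, w0, w2⟩ := exists_row_gt (max_lt w1 ha0)
  have w4 := w3.mono le_top ((le_max_left _ _).trans w0.le)
  have w5 : a0 < α := (le_max_right _ _).trans_lt w0
  let gc : Co := ⟨⊥, α, Classical.arbitrary Z, lb⟩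
  let t : ι → Row × Z := fun i => (α, nd (F i) ⟨α, w2⟩)
  have ht : ∀ i, ∀ b < α, lev (t i).2 b = F i b := fun i b hb => lev_nd (F i) ⟨α, w2⟩ hb
  let z : ι → Name PP := fun i => addN (rname (xc (t i))) (difN (rname gc) (rname (xc c0)))
  have h1 : ∀ i, ∃ (e : PP) (n l : ℕ), i ∈ I →
      (Forces e fun U => Mod.mem ((z i).val U) ((N n).val U)) ∧ n ≤ l ∧ 0 < l ∧
      (∀ d, (e.1 d).t ≤ l) ∧ (∀ d, (e.1 d).F1.Nonempty → l ≤ (e.1 d).t) ∧
      ∀ d : Co, d.row ≤ a0 → t i ∈ (e.1 d).F1 → c0 ∈ (e.1 d).F1 := by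
    intro i
    by_cases hi : i ∈ I
    · obtain ⟨r, -, n, h2⟩ := N2 (z i) (c i) (((hc i hi).and
        (perp_meager (d := xc c0) rnd_bot_lt ha0 _)).imp fun U h =>
          ⟨h.1.1.2 _ h.2 _ (mem_sumN _ _ U), addN_sum (h.1.2 _ (mem_fam
            (fun α : {α : Row // α < ⊤} => rname (xc (α.1, nd (F i) α))) ⟨α, w2⟩ U))⟩)
      obtain ⟨l, g1, g2, e, g3, g4, g5⟩ := normalize r.2 n
      obtain ⟨e', k1, k2, k3, k4⟩ := add_promise g3.refl (t i) c0 a0 fun d d1 d2 =>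
        ⟨d1, fun b hb => (lev_nd s ⟨a0, ha0⟩ (hb.trans_le d1)).trans
          ((hs i hi b (hb.trans_le d1)).symm.trans
            ((ht i b ((hb.trans_le d1).trans w5)).symm.trans (d2.2 b hb)))⟩
      exact ⟨⟨e', k1.refl⟩, n, l, fun _ => ⟨h2.mono (k1.trans g3), g1, g2,
        fun d => (k2 d).le.trans (g4 d), fun d h => (g5 d (k3 d h)).trans (k2 d).ge, k4⟩⟩
    · exact ⟨⊤, 0, 0, fun h => absurd h hi⟩
  choose e n l he using h1
  let K : ι → Finset Co := fun i =>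
    ((e i).1.support.filter fun d => lev d.z a0 = F i a0).image fun d => kc d.z
  have hK : ∀ i, ∀ x ∈ K i, ∃ y, x = kc y ∧ lev y a0 = F i a0 := fun i x hx => by
    obtain ⟨d, h1, rfl⟩ := Finset.mem_image.1 hx
    exact ⟨d.z, rfl, (Finset.mem_filter.1 h1).2⟩
  obtain ⟨D, I1, i1, i2, -, i4⟩ := exists_delta
    (fun i => K i ∪ ((e i).1.support ∪ (finite_Men (e i).1).toFinset)) hI
  obtain ⟨⟨l0, y⟩, hy⟩ := exists_fiber (fun i => (l i, fun d : D =>
    (((e i).1 d).t, ((e i).1 d).y, ((e i).1 d).E, ((e i).1 d).F0.card))) i2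
  have hE : {i | i ∈ I ∧ ∃ x ∈ K i, x ∈ D}.Finite := by
    refine Set.Finite.of_injOn (f := fun i => F i a0) ?_ (hζ.mono fun _ h => h.1)
      (D.finite_toSet.image fun x => lev x.z a0)
    rintro i ⟨-, x, x1, x2⟩
    obtain ⟨y, rfl, y1⟩ := hK i x x1
    exact ⟨_, x2, y1⟩
  have hinf := (Set.not_infinite.not_right.2 fun h =>
    not_countable_diff hy hE.countable (Set.Finite.countable h) :)
  let f : ℕ → ι := fun k => (hinf.natEmbedding _ k).1
  have f0 : ∀ k k', k ≠ k' → f k ≠ f k' := fun k k' h h' =>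
    h ((hinf.natEmbedding _).injective (Subtype.ext h'))
  have f1 : ∀ k, f k ∈ I1 := fun k => (hinf.natEmbedding _ k).2.1.1
  have f2 : ∀ k, l (f k) = l0 := fun k => congrArg Prod.fst (hinf.natEmbedding _ k).2.1.2
  have f3 : ∀ k, ∀ d (hd : d ∈ D), (((e (f k)).1 d).t, ((e (f k)).1 d).y, ((e (f k)).1 d).E,
      ((e (f k)).1 d).F0.card) = y ⟨d, hd⟩ :=
    fun k d hd => congrFun (congrArg Prod.snd (hinf.natEmbedding _ k).2.1.2) ⟨d, hd⟩
  have f4 : ∀ k, ∀ x ∈ K (f k), x ∉ D := fun k x x1 x2 =>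
    (hinf.natEmbedding _ k).2.2 ⟨i1 (f1 k), x, x1, x2⟩
  have f5 := fun k => he (f k) (i1 (f1 k))
  simp only [f2] at f5
  choose p p1 p2 p3 using fun k => exists_pext (e (f k)).2
    (s := (K (f k) : Set Co) ∪ {d | ((e (f k)).1 d).F1.Nonempty ∧ ⊥ < d.rnd ∧ d ∉ D})
    ((K (f k)).finite_toSet.union ((finite_F1 (e (f k)).1).subset fun _ h => h.1))
    (fun _ => l0 + k) fun _ => ∅
  have q1 : ∀ k d, (p k d).F1 = ((e (f k)).1 d).F1 ∧ ((e (f k)).1 d).t ≤ (p k d).t := fun k d => by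
    by_cases h : d ∈ (K (f k) : Set Co) ∪ {d | ((e (f k)).1 d).F1.Nonempty ∧ ⊥ < d.rnd ∧ d ∉ D}
    · rw [p2 k d h]; exact ⟨rfl, le_max_left _ _⟩
    · rw [p3 k d h]; exact ⟨rfl, le_rfl⟩
  have q2 : ∀ k, Men (p k) = Men (e (f k)).1 := fun k => by simp only [Men, (q1 k _).1]
  have q3 : ∀ k, ∀ d ∈ D, p k d = (e (f k)).1 d := fun k d hd => p3 k d (by
    rintro (h | h)
    · exact f4 k d h hd
    · exact h.2.2 hd)
  have q4 : ∀ k a, p k (xc a) = (e (f k)).1 (xc a) := fun k a => p3 k _ (by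
    rintro (h | h)
    · obtain ⟨y, y1, -⟩ := hK _ _ h
      exact xc_ne_kc _ _ y1
    · exact lt_irrefl _ h.2.1)
  have q7 : ∀ k, p k gc = (e (f k)).1 gc := fun k => p3 k _ (by
    rintro (h | h)
    · obtain ⟨y, y1, -⟩ := hK _ _ h
      exact (bot_le.trans_lt w5).ne' (congrArg Co.row y1)
    · exact lt_irrefl _ h.2.1)
  have q5 : ∀ k, ∀ x ∈ Men (p k), (p k x).t ≤ l0 := by
    rintro k _ ⟨d, a, -, rfl⟩
    rw [q4]
    exact (f5 k).2.2.2.1 _
  have q6 : ∀ k d, (p k d).F1.Nonempty → l0 ≤ (p k d).t := fun k d h =>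
    ((f5 k).2.2.2.2.1 d ((q1 k d).1 ▸ h)).trans (q1 k d).2
  have hN : Nice p D l0 (Finset.univ.sup fun d : D => (y d).2.2.2) := by
    refine ⟨fun k => (p1 k).refl, fun d hd => ?_, fun d hd k => ?_, fun d hd k => ?_,
      (f5 0).2.2.1, fun k d d1 d2 => ⟨q6 k d d2, fun d3 => ?_⟩, q5⟩
    · have key : ∀ k, d ∉ K (f k) ∪ ((e (f k)).1.support ∪
          (finite_Men (e (f k)).1).toFinset) → p k d = 0 ∧ d ∉ Men (p k) := fun k h => by
        simp only [Finset.mem_union, Finsupp.mem_support_iff,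
          Set.Finite.mem_toFinset, not_or, not_not] at h
        refine ⟨(p3 k d ?_).trans h.2.1, q2 k ▸ h.2.2⟩
        rintro (h' | h')
        · exact h.1 h'
        · simpa [h.2.1] using h'.1
      by_cases h : ∃ k, d ∈ K (f k) ∪ ((e (f k)).1.support ∪
          (finite_Men (e (f k)).1).toFinset)
      · obtain ⟨k, hk⟩ := h
        exact ⟨k + 1, fun k' hk' => key k' fun h' =>
          hd (i4 _ (f1 k) _ (f1 k') (f0 k k' (by omega)) d hk h')⟩
      · exact ⟨0, fun k _ => key k fun h' => h ⟨k, h'⟩⟩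
    · have := (f3 k d hd).trans (f3 0 d hd).symm
      simp only [Prod.mk.injEq] at this
      rw [q3 k d hd, q3 0 d hd]
      exact ⟨this.1, this.2.1, this.2.2.1⟩
    · rw [q3 k d hd]
      exact (congrArg (fun x => x.2.2.2) (f3 k d hd)).le.trans
        (Finset.le_sup (f := fun d : D => (y d).2.2.2) (Finset.mem_univ _))
    · rw [p2 k d (Or.inr ⟨(q1 k d).1 ▸ d2, d1, d3⟩), pext_t]
      omega
  obtain ⟨q, hq, hq'⟩ := exists_limit hN
  obtain ⟨c', g1, g, ⟨m', u⟩, g2, g3⟩ := n1.2 ⟨q, hq⟩ l0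
  obtain ⟨k, g4, e0, g5, g6⟩ := hq' c'.1 g1 m'
  obtain ⟨e', j1, j2, -⟩ := exists_pext g5.refl (Set.finite_singleton (xc c0)) (fun _ => m')
    fun _ => ∅
  have j3 : m' ≤ (e' (xc c0)).t := by rw [j2 _ rfl]; exact le_max_right _ _
  have g7 := j1.trans g6
  obtain ⟨g', k1, k2, k3, k4, k0⟩ := row_amal (a0 := t (f k)) (m0 := l0) (m' := m')
    (u.filter fun m => m ∈ (e' (xc c0)).y)
    (p1 k).refl (g7.mono le_rfl (le_top (a := α))) (f5 0).2.2.1 (q5 k)
    (by rw [q4]; exact (f5 k).2.2.2.1 _) (q6 k) le_rfl le_rfl (Or.inr fun d d1 d2 d3 => by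
      rcases le_or_gt d.row a0 with hd | hd
      · exact Or.inr ⟨c0, (q1 k d).1 ▸ (f5 k).2.2.2.2.2 d hd ((q1 k d).1 ▸ d3), w5,
          fun m m1 m2 => Bool.false_ne_true (m2.2.1 (Finset.mem_filter.1 m1).2)⟩
      refine Or.inl fun m m1 m2 m3 => ?_
      have s0 : kc d.z ∈ K (f k) := Finset.mem_image.2 ⟨d, Finset.mem_filter.2
        ⟨Finsupp.mem_support_iff.2 fun h => by simp [(q1 k d).1, h] at d3,
          ((((p1 k).val d1 (d2.trans w2)).f1 _ d3).1.2 a0 hd).symm.trans (ht _ a0 w5)⟩, rfl⟩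
      have s1 := g7.soft (d := kc d.z) rnd_bot_lt row_bot_lt
      rw [p2 k _ (Or.inl s0)] at s1
      have := (s1.y m (by rw [pext_t]; omega)).1 (m3.2.2 rfl)
      rw [mem_pext (((f5 k).2.2.2.1 _).trans m1)] at this
      exact Finset.notMem_empty _ this)
  obtain ⟨g'', v1, v2, -⟩ := exists_pext k1.refl (Set.finite_singleton gc) (fun _ => m') fun _ => u
  have v3 : (g' gc).t ≤ l0 := by
    rw [k0 gc le_rfl la_ne.symm, q7]
    exact (f5 k).2.2.2.1 _
  have v4 := ((v1.mono le_rfl (le_top (a := α))).trans k2).soft (d := xc c0) rnd_bot_lt w5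
  obtain ⟨hg, k5⟩ := n1.1 g l0 _ g2
  have k6 : leR ⊤ ⊤ g' g := le_of_within k1.refl
    (k2.trans (((j1.trans g5).trans g3).mono le_rfl le_top)) (w4 g _ _ g2)
  obtain ⟨U, hU⟩ := exists_gen (P := PP) ⟨g'', v1.refl⟩
  have a1 := fapp (forces_agr (d := xc (t (f k))) (s := ⟨g', k1.refl⟩) rnd_bot_lt w2 k3 k4) v1 hU
  have a2 := forces_agr (d := gc) (s := ⟨g'', v1.refl⟩) (a := l0) (b := m') (u := u) rnd_bot_lt w2
    (by rw [v2 _ rfl]; exact le_max_right _ _)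
    (fun m m1 _ => by rw [v2 _ rfl]; exact mem_pext (v3.trans m1)) U hU
  have a3 := forces_agr (d := xc c0) (s := ⟨g'', v1.refl⟩) (a := l0) (b := m')
    (u := (e' (xc c0)).y) rnd_bot_lt ha0 (j3.trans v4.t) (fun m _ m2 => v4.y m (m2.trans_le j3)) U hU
  refine fapp k5 (v1.trans k6) hU _ (addN_mem _ _ U) (fun m m1 m2 => ?_)
    (n (f k)) (Nat.lt_succ_of_le (f5 k).2.1) (fapp (f5 k).1 (v1.trans (k1.trans (p1 k))) hU)
  have b1 := a1 m m1 m2
  have b2 := a2 m m1 m2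
  have b3 := a3 m m1 m2
  have b4 : Mod.mem ((natName m).val U) (wN.val U) := natName_mem_omega m U
  rw [Finset.mem_filter] at b1
  unfold Bit at b1 b2 b3 ⊢
  rw [mem_addN, mem_difN, b1, b2, b3]
  dsimp only
  tauto

end Pool.Agent.P.MP_0c5c88_lc.T
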