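import Pool.Agent.P.MP_0c5c88_lc.T.Amal

set_option autoImplicit false

/-! Ultrafilter limits, part 1: limits of names and the recursion along rows. -/

namespace Pool.Agent.P.MP_0c5c88_lc.T

theorem exists_lim {r : Rnd} {β : Row} {q : C} {D : C → (C → ℕ → Prop) → Prop}
    (hD : IsUF (cone (leR r β) q) D) {ν : ℕ → Lam} (hν : ∀ i, Tot (leR r β) (ν i)) :
    ∃ ν', Tot (leR r β) ν' ∧ ∀ c n b, leR r β c q → Dec (leR r β) c ν' n (bv b) →
      D c fun e i => Dec (leR r β) e (ν i) n (bv b) := by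
  have hl := isRel_leR r β
  have hc := hl.cone q
  have hlow : ∀ n b, Low (cone (leR r β) q) fun e i => Dec (leR r β) e (ν i) n (bv b) :=
    fun n b e e' i h h' => h'.mono hl h.1
  let W : ℕ → Bool → C → Prop := fun n b g =>
    (leR r β g q ∧ D g fun e i => Dec (leR r β) e (ν i) n (bv b)) ∨
      ((∀ e, leR r β e g → ¬ leR r β e q) ∧ b = false)
  choose S h1 h2 h3 using fun n => exists_antichain r β fun g => ∃ b, W n b g
  obtain ⟨ν', hν'⟩ := nm_surj (S := {x | x.1 ∈ S x.2.1 ∧ ∃ b, x.2.2 = bv b ∧ W x.2.1 b x.1})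
    ((Set.countable_iUnion fun n => (h1 n).prod (Set.to_countable (Set.univ : Set (ℕ × V)))).mono
      fun x hx => Set.mem_iUnion.2 ⟨x.2.1, Set.mk_mem_prod hx.1 (Set.mem_univ _)⟩)
  refine ⟨ν', fun e he n => ?_, fun c n b g1 g2 => ?_⟩
  · obtain ⟨e1, k1, k2⟩ : ∃ e1, leR r β e1 e ∧ ∃ b, W n b e1 := by
      by_cases h : ∃ e1, leR r β e1 e ∧ leR r β e1 q
      · obtain ⟨e1, k1, k2⟩ := h
        by_cases h' : ∃ e2, cone (leR r β) q e2 e1 ∧ D e2 (perp (cone (leR r β) q)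
            fun e i => Dec (leR r β) e (ν i) n (bv true))
        · obtain ⟨e2, k3, k4⟩ := h'
          refine ⟨e2, k3.1.trans k1, false, Or.inl ⟨k3.2, hD.of_dense hc (hc.refl k3) (hlow _ _)
            fun e3 k5 => ⟨e3, hc.refl k5, _, hD.mono _ _ _ k5 k4, fun d i k6 k7 => ?_⟩⟩⟩
          obtain ⟨e4, k8, g, b, k9, k10⟩ := hν i d k6.1.refl n
          have k11 := Dec.of_mem hl k9 k10
          cases b with
          | true => exact absurd k11 (k7 e4 ⟨k8, k8.trans k6.2⟩)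
          | false => exact ⟨e4, ⟨k8, k8.trans k6.2⟩, k11⟩
        · exact ⟨e1, k1, true, Or.inl ⟨k2, hD.ultra _ _ ⟨k1.refl, k2⟩ (hlow _ _)
            fun e2 k3 k4 => h' ⟨e2, k3, k4⟩⟩⟩
      · exact ⟨e, he, false, Or.inr ⟨fun e1 k1 k2 => h ⟨e1, k1, k2⟩, rfl⟩⟩
    obtain ⟨g, k3, e2, k4, k5⟩ := h3 n e1 k1.refl k2
    obtain ⟨b, hb⟩ := (h2 n g k3).1
    exact ⟨e2, k4.trans k1, g, b, by rw [hν']; exact ⟨k3, b, rfl, hb⟩, k5⟩
  · refine hD.of_dense hc ⟨g1.refl, g1⟩ (hlow _ _) fun e1 k1 => ?_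
    obtain ⟨e2, k2, g, k3, k4⟩ := g2 e1 k1.1
    rw [hν'] at k3
    obtain ⟨-, b', k5, k6⟩ := k3
    obtain rfl : b = b' := bv_inj k5
    have k7 := k2.trans k1.2
    rcases k6 with k6 | k6
    · exact ⟨e2, ⟨k2, k7⟩, _, hD.mono _ _ _ ⟨k4, k7⟩ k6.2,
        fun d i k8 k9 => ⟨d, hc.refl k8, k9⟩⟩
    · exact absurd k7 (k6.1 e2 k4)

theorem exists_zero_name : ∃ z : Lam, ∀ r β, Tot (leR r β) z := by
  obtain ⟨z, hz⟩ := nm_surj (S := Set.range fun n : ℕ => ((0 : C), n, bv false))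
    (Set.countable_range _)
  exact ⟨z, fun r β e he n => ⟨e, he, 0, false, by rw [hz]; exact ⟨n, rfl⟩, he.zero⟩⟩

theorem exists_limF {r : Rnd} {β : Row} {q : C} {D : C → (C → ℕ → Prop) → Prop}
    (hD : IsUF (cone (leR r β) q) D) {F : ℕ → Finset Lam} {h : ℕ} (h1 : ∀ i, (F i).card ≤ h)
    (h2 : ∀ i, ∀ ν ∈ F i, Tot (leR r β) ν) : ∃ F' : Finset Lam, (∀ ν ∈ F', Tot (leR r β) ν) ∧
      ∀ c μ a b y, leR r β c q →
        (∀ ν ∈ F', Match (leR r β) c μ (fun n v => Dec (leR r β) c ν n (bv v)) a b y) →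
        D c fun e i => ∀ ν ∈ F i,
          Match (leR r β) e μ (fun n v => Dec (leR r β) e ν n (bv v)) a b y := by
  classical
  have hl := isRel_leR r β
  have hc := hl.cone q
  obtain ⟨z, hz⟩ := exists_zero_name
  have h3 : ∀ k i, Tot (leR r β) ((F i).toList.getD k z) := fun k i => by
    rcases lt_or_ge k (F i).toList.length with hk | hk
    · rw [List.getD_eq_getElem _ _ hk]
      exact h2 i _ (Finset.mem_toList.1 (List.getElem_mem hk))
    · rw [List.getD_eq_default _ _ hk]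
      exact hz r β
  choose L hL hL' using fun k => exists_lim hD (h3 k)
  refine ⟨(Finset.range h).image L, fun ν hν => ?_, fun c μ a b y g1 g2 => ?_⟩
  · obtain ⟨k, -, rfl⟩ := Finset.mem_image.1 hν
    exact hL k
  · have hcc : cone (leR r β) q c c := ⟨g1.refl, g1⟩
    have hlow : ∀ ν : ℕ → Lam, Low (cone (leR r β) q) fun e i =>
        Match (leR r β) e μ (fun n v => Dec (leR r β) e (ν i) n (bv v)) a b y :=
      fun ν e e' i k1 k2 => k2.imp (fun _ _ h => h.mono hl k1.1) (fun _ _ _ _ h => h.mono hl k1.1)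
        le_rfl le_rfl fun _ _ _ => Iff.rfl
    have g3 : ∀ k ∈ Set.Iio h, D c fun e i => Match (leR r β) e μ
        (fun n v => Dec (leR r β) e ((F i).toList.getD k z) n (bv v)) a b y := by
      intro k hk
      obtain ⟨a', b', u, k1, k2, k3, k4⟩ := g2 _ (Finset.mem_image_of_mem L (Finset.mem_range.2 hk))
      choose! v hv hv' using k4
      refine hD.sup hc hcc (hlow _) (hD.finite hc hcc (Set.finite_Ico a' b')
        fun n hn => hL' k c n (v n) g1 (hv n hn.1 hn.2)) fun d i k5 k6 => ?_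
      exact ⟨a', b', u, k1, k2, k3.mono hl k5.1, fun n n1 n2 => ⟨v n, k6 n ⟨n1, n2⟩, hv' n n1 n2⟩⟩
    refine hD.sup hc hcc (fun e e' i k1 k2 ν hν => hlow (fun _ => ν) e e' i k1 (k2 ν hν))
      (hD.finite hc hcc (Set.finite_Iio h) g3) fun d i _ k6 ν hν => ?_
    obtain ⟨k, hk, rfl⟩ := List.getElem_of_mem (Finset.mem_toList.2 hν)
    have := k6 k (hk.trans_le ((Finset.length_toList _).le.trans (h1 i)))
    rwa [List.getD_eq_getElem _ _ hk] at this

/-- the points in `Φ` with rows in `[α, β)` vanish on `[n, l)` -/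
def Zero (α β : Row) (e : C) (Φ : Set Co) (n l : ℕ) : Prop :=
  ∀ x ∈ Φ, x.rnd = ⊥ → α ≤ x.row → x.row < β → l ≤ (e x).t ∧ ∀ m, n ≤ m → m < l → m ∉ (e x).y

theorem Zero.mono {α β : Row} {e e' : C} {Φ Φ' : Set Co} {n l l' : ℕ} {r : Rnd}
    (h : Zero α β e Φ n l) (h1 : leR r β e' e) (h2 : ⊥ < r) (h3 : Φ' ⊆ Φ) (h4 : l' ≤ l) :
    Zero α β e' Φ' n l' := fun x x1 x2 x3 x4 => by
  obtain ⟨g1, g2⟩ := h x (h3 x1) x2 x3 x4
  have := h1.soft (x2.trans_lt h2) x4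
  exact ⟨h4.trans (g1.trans this.t), fun m m1 m2 m3 => g2 m m1 (m2.trans_le h4)
    ((this.y m (m2.trans_le (h4.trans g1))).1 m3)⟩

theorem Zero.match {α β : Row} {a : Row × Z} {e : C} {Φ : Set Co} {n l : ℕ} {d : Co} {B : ℕ × ℕ}
    {y : Finset ℕ} (h : Zero α β e Φ n l) (h1 : xc a ∈ Φ) (h2 : α ≤ a.1) (h3 : a.1 < β)
    (h4 : Good (lo d) e d B y) (h5 : n ≤ B.1) (h6 : B.2 ≤ l) :
    Match (lo d) e d.lam (Vn (e (xc a))) B.1 B.2 y := by
  obtain ⟨g1, g2⟩ := h _ h1 rfl h2 h3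
  exact h4.zero_match.of_zero (h6.trans g1) fun m m1 m2 => g2 m (h5.trans m1) (m2.trans_le h6)

/-- downward closed families of witnesses -/
def LowG (le : C → C → Prop) (G : ℕ → ℕ → C → ℕ → Prop) : Prop :=
  ∀ n i e e' l, le e' e → G n i e l → G n i e' l

variable (p : ℕ → C) (Rt : Finset Co) (l0 : ℕ)

/-- the previous row of the root -/
noncomputable def pre (β : Row) : Row := by
  classical
  exact (Rt.filter fun d => d.row < β).sup Co.row

theorem pre_lt {β : Row} (h : ⊥ < β) : pre Rt β < β := by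
  classical
  exact (Finset.sup_lt_iff h).2 fun d hd => (Finset.mem_filter.1 hd).2

theorem le_pre {β : Row} {d : Co} (h : d ∈ Rt) (h' : d.row < β) : d.row ≤ pre Rt β := by
  classical
  exact Finset.le_sup (f := Co.row) (Finset.mem_filter.2 ⟨h, h'⟩)

/-- the sets put in the ultrafilter of the next row -/
def InvSet (r : Rnd) (α β : Row) (Φ : Set Co) (G : ℕ → ℕ → C → ℕ → Prop) : C → ℕ → Prop :=
  fun e i => leR r β e (p i) ∧ ∃ n l, G n i e l ∧ Zero α β e Φ n l ∧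
    Zero α β e (Men (p i) \ Rt) l0 l

/-- the link between the ultrafilters of consecutive rows -/
def Inv (r : Rnd) (q : C) (α β : Row) (D D' : C → (C → ℕ → Prop) → Prop) : Prop :=
  ∀ Φ : Set Co, Φ.Finite → ∀ G, LowG (cone (leR r α) q) G → ∀ e, leR r β e q →
    (∀ n, D e fun e' i => ∃ l, G n i e' l) → D' e (InvSet p Rt l0 r α β Φ G)

/-- the state of the construction at round `r` -/
def State (r : Rnd) : Prop := ∃ (q : C) (D : Row → C → (C → ℕ → Prop) → Prop), leR r ⊤ q q ∧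
  (∀ β, IsUF (cone (leR r β) q) (D β)) ∧ (∀ β e, leR r β e q → D β e fun e' i => leR r β e' (p i)) ∧
  ∀ β, ⊥ < β → Inv p Rt l0 r q (pre Rt β) β (D (pre Rt β)) (D β)

variable {p Rt l0}

theorem cone_mono {r : Rnd} {α β : Row} {q e e' : C} (h : cone (leR r β) q e e') (h' : α ≤ β) :
    cone (leR r α) q e e' := ⟨h.1.mono le_rfl h', h.2.mono le_rfl h'⟩

theorem build {r : Rnd} {q : C} (hr : ⊥ < r) (hq : leR r ⊤ q q)
    {M : Row → C → (C → ℕ → Prop) → Prop} (hM : ∀ β, Pre (cone (leR r β) q) (M β))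
    (hstep : ∀ β, ⊥ < β → ∀ D, IsUF (cone (leR r (pre Rt β)) q) D →
      (∀ e A, leR r (pre Rt β) e q → M (pre Rt β) e A → D e A) →
      (∀ e, leR r (pre Rt β) e q → D e fun e' i => leR r (pre Rt β) e' (p i)) →
      ∀ c, leR r β c q → ∀ B (Φ : Set Co) G, M β c B → Φ.Finite →
        LowG (cone (leR r (pre Rt β)) q) G → (∀ n, D c fun e' i => ∃ l, G n i e' l) →
        ∃ c', leR r β c' c ∧ ∃ i, B c' i ∧ InvSet p Rt l0 r (pre Rt β) β Φ G c' i) :
    State p Rt l0 r := by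
  classical
  let Q : Row → (C → (C → ℕ → Prop) → Prop) → Prop := fun β D => IsUF (cone (leR r β) q) D ∧
    (∀ e A, leR r β e q → M β e A → D e A) ∧ ∀ e, leR r β e q → D e fun e' i => leR r β e' (p i)
  have hP : ∀ β, Low (cone (leR r β) q) fun e' i => leR r β e' (p i) :=
    fun β e e' i h h' => h.1.trans h'
  have h0 : ∃ D, Q ⊥ D := by
    obtain ⟨D, h1, h2⟩ := exists_uf ((isRel_leR r ⊥).cone q) (hM ⊥)
    exact ⟨D, h1, fun e A _ => h2 e A, fun e he => h1.univ ((isRel_leR r ⊥).cone q) ⟨he.refl, he⟩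
      (hP ⊥) fun _ _ _ => leR_bot _ _ _⟩
  have h1 : ∀ β, ⊥ < β → ∀ D, Q (pre Rt β) D →
      ∃ D', Q β D' ∧ Inv p Rt l0 r q (pre Rt β) β D D' := by
    rintro β hβ D ⟨hD, hD1, hD2⟩
    have hle := (pre_lt Rt hβ).le
    have hc := (isRel_leR r β).cone q
    have hc' := (isRel_leR r (pre Rt β)).cone q
    have huniv : ∀ e, leR r β e q → D e fun _ _ => ∃ _ : ℕ, True := fun e he =>
      hD.univ hc' (cone_mono ⟨he.refl, he⟩ hle) (fun _ _ _ _ h => h) fun _ _ _ => ⟨0, trivial⟩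
    have hlow : ∀ Φ G, LowG (cone (leR r (pre Rt β)) q) G →
        Low (cone (leR r β) q) (InvSet p Rt l0 r (pre Rt β) β Φ G) := by
      rintro Φ G hG e e' i g1 ⟨g2, n, l, g3, g4, g5⟩
      exact ⟨g1.1.trans g2, n, l, hG _ _ _ _ _ (cone_mono g1 hle) g3,
        g4.mono g1.1 hr subset_rfl le_rfl, g5.mono g1.1 hr subset_rfl le_rfl⟩
    obtain ⟨D', k1, k2⟩ := exists_uf hc (S := fun e X => Low (cone (leR r β) q) X ∧
        ∃ (B : C → ℕ → Prop) (Φ : Set Co) (G : ℕ → ℕ → C → ℕ → Prop), M β e B ∧ Φ.Finite ∧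
          LowG (cone (leR r (pre Rt β)) q) G ∧ (∀ n, D e fun e' i => ∃ l, G n i e' l) ∧
          (leR r β e q) ∧
          ∀ d i, leR r β d e → B d i → InvSet p Rt l0 r (pre Rt β) β Φ G d i → X d i) (by
      refine ⟨?_, ?_, fun e k he => ⟨fun _ _ _ _ h => h, _, ∅, fun _ _ _ _ => True,
        (hM β).cof e k he, Set.finite_empty, fun _ _ _ _ _ _ h => h, fun _ => huniv e he.2, he.2,
        fun _ _ _ h _ => h⟩, ?_, fun _ _ h => h.1⟩
      · rintro e e' X g0 ⟨g1, B, Φ, G, g2, g3, g4, g5, -, g7⟩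
        exact ⟨g1, B, Φ, G, (hM β).mono _ _ _ g0 g2, g3, g4,
          fun n => hD.mono _ _ _ (cone_mono g0 hle) (g5 n), g0.2,
          fun d i hd => g7 d i (hd.trans g0.1)⟩
      · rintro e X X' ⟨g1, B, Φ, G, g2, g3, g4, g5, g6, g7⟩ ⟨k1, B', Φ', G', k2, k3, k4, k5, -, k7⟩
        have hG : LowG (cone (leR r (pre Rt β)) q)
            fun n i e l => ∃ l1 ≤ l, ∃ l2 ≤ l, G n i e l1 ∧ G' n i e l2 := by
          rintro n i e e' l h ⟨l1, a1, l2, a2, a3, a4⟩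
          exact ⟨l1, a1, l2, a2, g4 _ _ _ _ _ h a3, k4 _ _ _ _ _ h a4⟩
        refine ⟨g1.and k1, _, Φ ∪ Φ', _, (hM β).inter _ _ _ g2 k2, g3.union k3, hG,
          fun n => hD.sup hc' (cone_mono ⟨g6.refl, g6⟩ hle)
            (fun e e' i h ⟨l, h'⟩ => ⟨l, hG _ _ _ _ _ h h'⟩) (hD.inter _ _ _ (g5 n) (k5 n))
            fun d i _ ⟨⟨l1, a1⟩, l2, a2⟩ =>
              ⟨max l1 l2, l1, le_max_left _ _, l2, le_max_right _ _, a1, a2⟩, g6, ?_⟩
        rintro d i hd ⟨b1, b2⟩ ⟨a0, n, l, ⟨l1, a1, l2, a2, a3, a4⟩, a5, a6⟩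
        exact ⟨g7 d i hd b1 ⟨a0, n, l1, a3, a5.mono hd.refl hr Set.subset_union_left a1,
            a6.mono hd.refl hr subset_rfl a1⟩,
          k7 d i hd b2 ⟨a0, n, l2, a4, a5.mono hd.refl hr Set.subset_union_right a2,
            a6.mono hd.refl hr subset_rfl a2⟩⟩
      · rintro e X he ⟨-, B, Φ, G, g2, g3, g4, g5, g6, g7⟩
        obtain ⟨c', a1, i, a2, a3⟩ := hstep β hβ D hD hD1 hD2 e g6 B Φ G g2 g3 g4 g5
        exact ⟨c', ⟨a1, a1.trans g6⟩, i, g7 c' i a1 a2 a3⟩)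
    have hI : Inv p Rt l0 r q (pre Rt β) β D D' := fun Φ g1 G g2 e g3 g4 =>
      k2 _ _ ⟨hlow Φ G g2, _, Φ, G, (hM β).cof e 0 ⟨g3.refl, g3⟩, g1, g2, g4, g3,
        fun _ _ _ _ h => h⟩
    refine ⟨D', ⟨k1, fun e A g1 g2 => k2 _ _ ⟨(hM β).low _ _ g2, A, ∅, fun _ _ _ _ => True, g2,
      Set.finite_empty, fun _ _ _ _ _ _ h => h, fun _ => huniv e g1, g1, fun _ _ _ h _ => h⟩,
      fun e g1 => k1.sup hc ⟨g1.refl, g1⟩ (hP β) (hI ∅ Set.finite_empty (fun _ _ _ _ => True)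
        (fun _ _ _ _ _ _ h => h) e g1 fun _ => huniv e g1) fun _ _ _ h => h.1⟩, hI⟩
  choose f hf hf' using h1
  let F : ∀ β : Row, (∀ α, α < β → {D // Q α D}) → {D // Q β D} := fun β ih =>
    if h : ⊥ < β then ⟨f β h _ (ih _ (pre_lt Rt h)).2, hf β h _ _⟩
    else ⟨h0.choose, by rw [not_bot_lt_iff.1 h]; exact h0.choose_spec⟩
  let D : ∀ β : Row, {D // Q β D} := (wellFounded_lt (α := Row)).fix F
  refine ⟨q, fun β => (D β).1, hq, fun β => (D β).2.1, fun β => (D β).2.2.2, fun β hβ => ?_⟩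
  have : D β = F β fun α _ => D α := WellFounded.fix_eq _ _ _
  show Inv p Rt l0 r q (pre Rt β) β (D (pre Rt β)).1 (D β).1
  rw [this]
  simp only [F, dif_pos hβ]
  exact hf' β hβ _ _

end Pool.Agent.P.MP_0c5c88_lc.T
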