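import Pool.Agent.P.MP_0c5c88_lc.Lit

set_option autoImplicit false
set_option synthInstance.maxSize 4000

/-! The chain with the cofinality above the continuum is given by a formula. -/

open Pool.Agent.Lib.PosetForcing Pool.Agent.P.MP_95b5c3_gt.Lit

namespace Pool.Agent.P.MP_0c5c88_lc.T

universe v

/-- the chain of the problem, with the continuum between covering number and cofinality -/
def ChainC (M : Type v) (mem : M → M → Prop) : Prop :=
  ∃ w C I a n c f : M, IsOmega mem w ∧ IsPow mem C w ∧ (∀ X, mem X I ↔ MAdd mem w C X) ∧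
    IsLeastSize mem (AddI mem I) a ∧ IsLeastSize mem (NonI mem C I) n ∧
    IsLeastSize mem (CovI mem C I) c ∧ IsLeastSize mem (CofI mem I) f ∧
    LtCard mem a n ∧ LtCard mem n c ∧ LtCard mem c f ∧ LtCard mem c C ∧ LtCard mem C f

instance ud_chainC : UD.{v} fun M mem _ => ChainC M mem := by
  unfold ChainC; infer_instance

theorem chainC_lift (M : Type) (mem : M → M → Prop) :
    ChainC (ULift.{v} M) (fun a b => mem a.down b.down) ↔ ChainC M mem := by
  simp only [ChainC, IsOmega, IsInductive, IsSucc, IsPow, IsSub, IsLeastSize, AddI, NonI, CovI,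
    CofI, LtCard, ULift.forall, ULift.exists, ULift.up.injEq, Lit.le_lift, Lit.mAdd_lift]

theorem literalC {N : Type v} {mem' : N → N → Prop} (hN : IsZFC mem') (h : ChainC N mem') :
    (∃ φ, ∀ (M : Type) (mem : M → M → Prop), IsZFC mem → ∀ v, Sat mem φ v ↔ ChainC M mem) ∧
      ∀ φ, (∀ (M : Type) (mem : M → M → Prop), IsZFC mem → ∀ v, Sat mem φ v ↔ ChainC M mem) →
        Con (insert φ {χ | ZFC χ}) := by
  obtain ⟨⟨ψ, hψ⟩, g⟩ := not_prov (P := fun M mem => ¬ ChainC M mem)
    (Q := fun M mem => ¬ ChainC M mem) (fun M mem => not_congr (chainC_lift M mem)) hN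
    (not_not.2 h)
  refine ⟨⟨.neg ψ, fun M mem hM v => (not_congr (hψ M mem hM v)).trans not_not⟩, fun φ hφ => ?_⟩
  obtain ⟨M, mem, ⟨x⟩, hM⟩ :=
    (con_iff _).1 (g (.neg φ) fun M mem hM v => not_congr (hφ M mem hM v)).2
  refine con_of (mem := mem) x fun χ hχ u => ?_
  rcases hχ with rfl | hχ
  · exact not_not.1 (hM _ (Or.inl rfl) u)
  · exact hM χ (Or.inr hχ) u

end Pool.Agent.P.MP_0c5c88_lc.T
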