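import Pool.Agent.P.MP_0c5c88_lc.T.Big
import Pool.Agent.P.MP_0c5c88_lc.Between

set_option autoImplicit false

/-! The four cardinal characteristics in the extension. -/

open Pool.Agent.Lib.PosetForcing Cardinal

namespace Pool.Agent.P.MP_0c5c88_lc.T

theorem mAdd_of_cov {p : PP} {X : Name PP} (h : Cov ℵ₁ p X)
    (h' : Forces p fun U => IsSub Mod.mem (X.val U) (cN.val U)) :
    Forces p fun U => MAdd Mod.mem (wN.val U) (cN.val U) (X.val U) := by
  obtain ⟨ι, h1, d, h2⟩ := h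
  choose r β r1 b1 h3 using fun i => exists_codedAt (d i)
  obtain ⟨r', -, r2, r3⟩ := Rnd.bound (Set.range r) (mk_range_le.trans (h1.trans k1_lt.le))
  obtain ⟨β', -, b2, b3⟩ := Row.bound (Set.range β) (mk_range_le.trans h1)
  refine mAdd_of_coded r2 b2 h' fun x q hq hx => ?_
  obtain ⟨q', g1, i, g2⟩ := h2 x q hq hx
  exact ⟨q', g1, _, (h3 i).mono (r3 _ ⟨i, rfl⟩ (r1 i)).le (b3 _ ⟨i, rfl⟩ (b1 i)).le, g2⟩

theorem not_covW {p : PP} {F : Name PP} (h : Cov k2 p F) :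
    ¬ Forces p fun U => CovW Mod.mem (wN.val U) (cN.val U) (F.val U) := by
  intro h'
  obtain ⟨ι, h1, d, h2⟩ := h
  choose N N1 N2 using fun i => meager_code (d i)
  choose ν n1 n2 using fun i => exists_code (W := Works (N i)) (works_dense (N1 i))
  choose r β r1 b1 h3 using fun i => exists_within (n2 i)
  obtain ⟨r', -, r2, r3⟩ := Rnd.bound (Set.range r) (mk_range_le.trans h1)
  let x : Co := ⟨r', ⊥, Classical.arbitrary Z, lb⟩
  obtain ⟨X, hX⟩ := Forces.exists_name (h'.imp fun U h => h.2 _ (rname_mem x U))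
  obtain ⟨q, g1, i, g2⟩ := h2 X p le_rfl (hX.imp fun U h => h.1)
  obtain ⟨q', g3, n, g4⟩ := N2 i (rname x) q fun U hU => by
    beta_reduce
    rw [← fapp g2 le_rfl hU]
    exact ⟨meager_of_mAdd ((fapp h' g1 hU).1 _ (fapp hX g1 hU).1), (fapp hX g1 hU).2⟩
  obtain ⟨s, g5, g, ⟨b, u⟩, g6, g7⟩ := (n1 i).2 q' (max n (q'.1 x).t)
  obtain ⟨s', k1, k2, -, k3⟩ := glue (r0 := r') q'.2 (leR.mono g5 le_top le_rfl)
  obtain ⟨t, k4, k5, -⟩ := exists_pext k1.refl (Set.finite_singleton x) (fun _ => b) fun _ => u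
  obtain ⟨hg, k6⟩ := (n1 i).1 g _ _ g6
  have k7 : leR ⊤ ⊤ t g := le_of_within k4.refl
    ((k4.mono le_top le_rfl).trans (k2.trans (g7.mono le_top le_rfl)))
    ((h3 i).mono (r3 _ ⟨i, rfl⟩ (r1 i)).le le_top g _ _ g6)
  obtain ⟨U, hU⟩ := exists_gen (P := PP) ⟨t, k4.refl⟩
  have k8 : t x = pext (q'.1 x) b u := by rw [k5 x rfl, k3 x le_rfl]
  exact fapp k6 k7 hU _ (rname_mem x U) (forces_agr (d := x) r2 row_bot_lt
    (by rw [k8]; exact le_max_right _ _)
    (fun m m1 _ => by rw [k8]; exact mem_pext ((le_max_right _ _).trans m1)) U hU)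
    n (Nat.lt_succ_of_le (le_max_left _ _)) (fapp g4 (k4.trans k1) hU)

theorem exists_index {κ : Cardinal.{0}} {p : PP} {F : Name PP} (h : Cov κ p F) {A : Type}
    (φ : A → Row → Lam) (h' : ∀ z, Forces p fun U => ∃ X, Mod.mem X (F.val U) ∧
      MAdd Mod.mem (wN.val U) (cN.val U) X ∧ IsSub Mod.mem ((XN (φ z)).val U) X) :
    ∃ ι : Type, #ι ≤ κ ∧ ∃ (d : ι → Name PP) (f : A → ι) (q : A → PP), ∀ z, Forces (q z) fun U =>
      MAdd Mod.mem (wN.val U) (cN.val U) ((d (f z)).val U) ∧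
        IsSub Mod.mem ((XN (φ z)).val U) ((d (f z)).val U) := by
  obtain ⟨ι, h1, d, h2⟩ := h
  have : ∀ z : A, ∃ i, ∃ q : PP, Forces q fun U => MAdd Mod.mem (wN.val U) (cN.val U)
      ((d i).val U) ∧ IsSub Mod.mem ((XN (φ z)).val U) ((d i).val U) := by
    intro z
    obtain ⟨X, hX⟩ := Forces.exists_name (h' z)
    obtain ⟨q, g1, i, g2⟩ := h2 X p le_rfl (hX.imp fun U h => h.1)
    refine ⟨i, q, fun U hU => ?_⟩
    beta_reduce
    rw [← fapp g2 le_rfl hU]
    exact (fapp hX g1 hU).2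
  choose f q hq using this
  exact ⟨ι, h1, d, f, q, hq⟩

theorem not_cofW {p : PP} {F : Name PP} (h : Cov #Lam p F) :
    ¬ Forces p fun U => CofW Mod.mem (wN.val U) (cN.val U) (F.val U) := by
  classical
  intro h'
  obtain ⟨ι, h1, d, f, q, hq⟩ := exists_index h id fun z => h'.imp fun U h => by
    obtain ⟨X, x1, x2⟩ := h.2 _ (mAdd_XN z U)
    exact ⟨X, x1, h.1 X x1, x2⟩
  obtain ⟨a, i, s, ha, hs⟩ := koenig h1 f
  have : ∀ ζ : Lam, ∃ g : Row → Lam, ζ ∈ {ζ | ∃ g, (∀ b < a, g b = s b) ∧ g a = ζ ∧ f g = i} →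
      (∀ b < a, g b = s b) ∧ g a = ζ ∧ f g = i := fun ζ => by
    by_cases h : ζ ∈ {ζ | ∃ g, (∀ b < a, g b = s b) ∧ g a = ζ ∧ f g = i}
    · exact h.imp fun _ h _ => h
    · exact ⟨s, fun h' => absurd h' h⟩
  choose g hg using this
  exact big hs (F := g) ha (fun ζ h => (hg ζ h).1)
    (fun ζ h ζ' h' e => (hg ζ h).2.1.symm.trans (e.trans (hg ζ' h').2.1)) (d i) (fun ζ => q (g ζ))
    fun ζ h => (hg ζ h).2.2 ▸ hq (g ζ)

theorem big_const {ι : Type} {I : Set ι} (hI : ¬ I.Countable) {ζ : ι → Lam}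
    (hζ : Function.Injective ζ) (A : Name PP) (c : ι → PP) (hc : ∀ i ∈ I, Forces (c i) fun U =>
      MAdd Mod.mem (wN.val U) (cN.val U) (A.val U) ∧
        IsSub Mod.mem ((XN fun _ => ζ i).val U) (A.val U)) : False :=
  big hI (F := fun i _ => ζ i) row_bot_lt (s := fun _ => la) (fun _ _ _ h => absurd h not_lt_bot)
    hζ.injOn A c hc

theorem not_cov_self {A : Type} [Uncountable A] {ζ : A → Lam} (hζ : Function.Injective ζ)
    {κ : Cardinal.{0}} (hκ : κ < #A) (p : PP) : ¬ Cov κ p (fam fun z => XN fun _ => ζ z) := by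
  intro h
  obtain ⟨ι, h1, d, f, q, hq⟩ := exists_index h (fun z _ => ζ z) fun z => Forces.of_forall
    (fun U => ⟨_, mem_fam (fun z => XN fun _ => ζ z) z U, mAdd_XN _ U, fun _ h => h⟩) p
  obtain ⟨i, hi⟩ := exists_uncountable_fiber f (h1.trans_lt hκ)
  exact big_const (I := f ⁻¹' {i}) (fun h => not_countable h.to_subtype) hζ (d i) q
    fun z hz => (show f z = i from hz) ▸ hq z

theorem exists_emb : Nonempty (W1 ↪ Lam) := by
  rw [← Cardinal.le_def, mk_W1]
  exact k1_lt.le.trans (k2_lt.le.trans k3_lt_Lam.le)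

/-- the witness for additivity -/
noncomputable def A0 : Name PP := fam fun ξ : W1 => XN fun _ => exists_emb.some ξ

theorem not_mAdd_union (U : Gen PP) :
    ¬ MAdd Mod.mem (wN.val U) (cN.val U) ((unionName A0).val U) := by
  intro h
  obtain ⟨p, hp⟩ := Ultrafilter.nonempty_of_mem (truth
    (Φ := fun U : Gen PP => MAdd Mod.mem (wN.val U) (cN.val U) ((unionName A0).val U)) h)
  exact big_const Set.not_countable_univ exists_emb.some.injective (unionName A0) (fun _ => p)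
    fun ξ _ => Forces.imp hp fun U h => ⟨h, fun x hx => (mem_unionName _ U x).2
      ⟨_, mem_fam (fun ξ : W1 => XN fun _ => exists_emb.some ξ) ξ U, hx⟩⟩

theorem mAdd_A0 (U : Gen PP) : ∀ X, Mod.mem X (A0.val U) → MAdd Mod.mem (wN.val U) (cN.val U) X :=
  forall_mem_fam (Φ := fun U X => MAdd Mod.mem (wN.val U) (cN.val U) X) (fun _ U => mAdd_XN _ U) U

theorem addW_A0 (U : Gen PP) : AddW Mod.mem (wN.val U) (cN.val U) (A0.val U) :=
  ⟨mAdd_A0 U, _, mem_unionName A0 U, not_mAdd_union U⟩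

theorem nonW_union (U : Gen PP) : NonW Mod.mem (wN.val U) (cN.val U) ((unionName A0).val U) := by
  refine ⟨fun x hx => ?_, not_mAdd_union U⟩
  obtain ⟨X, h1, h2⟩ := (mem_unionName _ U x).1 hx
  exact (mAdd_A0 U X h1).1 x h2

theorem cov_union (p : PP) : Cov k2 p (unionName A0) := by
  refine ⟨W1 × {α : Row // α < ⊤}, ?_, fun x => rname (xc (x.2.1, nd (fun _ => exists_emb.some x.1) x.2)),
    fun x q _ hx => ?_⟩
  · rw [mk_prod, lift_id, lift_id, mk_W1]
    exact (mul_le_mul' k1_lt.le ((mk_subtype_le _).trans (mk_Lv_le k2_inf))).trans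
      (mul_eq_self k2_inf).le
  · obtain ⟨X, hX⟩ := Forces.exists_name (hx.imp fun U h => (mem_unionName _ U _).1 h)
    obtain ⟨r, h1, ξ, h2⟩ := (hX.imp fun U h => h.1).exists_fam
    obtain ⟨s, h3, α, h4⟩ := Forces.exists_fam (a := x)
      (((hX.mono h1).and h2).imp fun U h => h.2 ▸ h.1.2)
    exact ⟨s, h3.trans h1, (ξ, α), h4⟩

/-- the witness for covering -/
noncomputable def C0 : Name PP :=
  fam fun x : {r : Rnd // r < ⊤} × {β : Row // β < ⊤} => YN x.1.1 x.2.1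

theorem covW_C0 (U : Gen PP) : CovW Mod.mem (wN.val U) (cN.val U) (C0.val U) := by
  refine ⟨forall_mem_fam (Φ := fun U X => MAdd Mod.mem (wN.val U) (cN.val U) X)
    (fun x U => mAdd_YN x.1.2 x.2.2 U) U, fun z hz => ?_⟩
  obtain ⟨z, rfl⟩ := z.exists_name
  obtain ⟨S, -, hS⟩ := (ccc_LP ⊤ ⊤).exists_niceReal z
  obtain ⟨r, β, h1, h2, h3⟩ := exists_codedAt (niceReal S)
  rw [hS U (mem_cN.1 hz)]
  exact ⟨_, mem_fam (fun x : {r : Rnd // r < ⊤} × {β : Row // β < ⊤} => YN x.1.1 x.2.1)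
    (⟨r, h1⟩, ⟨β, h2⟩) U, mem_fam (fun S : {S : Set (PP × ULift.{0} ℕ) //
      CodedAt r β (niceReal S)} => niceReal S.1) ⟨S, h3⟩ U⟩

theorem cov_C0 (p : PP) : Cov k3 p C0 := by
  refine cov_fam ?_ _ p
  rw [mk_prod, lift_id, lift_id]
  exact (mul_le_mul' ((mk_subtype_le _).trans (mk_Lv_le k3_inf))
    ((mk_subtype_le _).trans ((mk_Lv_le k2_inf).trans k2_lt.le))).trans (mul_eq_self k3_inf).le

theorem exists_cofW (U : Gen PP) : ∃ F, CofW Mod.mem (wN.val U) (cN.val U) F := by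
  have h := mem_sepName (powName cN) (fun U X => MAdd Mod.mem (wN.val U) (cN.val U) X) U
  exact ⟨_, fun X hX => ((h X).1 hX).2,
    fun Y hY => ⟨Y, (h Y).2 ⟨(mem_powName _ U Y).2 hY.1, hY⟩, fun _ h => h⟩⟩

theorem not_cov_union (p : PP) : ¬ Cov ℵ₁ p (unionName A0) := fun h =>
  Forces.not_false ((mAdd_of_cov h (Forces.of_forall (fun U => (nonW_union U).1) p)).imp
    fun U h => not_mAdd_union U h)

theorem cov_cN (p : PP) : Cov #Lam p cN := by
  let f : PP × ULift.{0} ℕ → C × ℕ × V := fun x => (x.1.1, x.2.down, (0, ∅))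
  have hf : Function.Injective f := fun x y h => by
    simp only [f, Prod.mk.injEq, and_true] at h
    exact Prod.ext (Subtype.ext h.1) (ULift.ext _ _ h.2)
  choose l hl using fun S : {S : Set (PP × ULift.{0} ℕ) // S.Countable} => nm_surj (S.2.image f)
  refine ⟨_, (mk_le_of_injective (f := l) fun S T h => Subtype.ext (hf.image_injective ?_)), fun S => niceReal S.1, fun x q _ hx => ?_⟩
  · rw [← hl, ← hl, h]
  · obtain ⟨S, h1, h2⟩ := (ccc_LP ⊤ ⊤).exists_niceReal x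
    exact ⟨q, le_rfl, ⟨S, h1⟩, hx.imp fun U h => h2 U (mem_cN.1 h)⟩

theorem rname_ne {z z' : Z} (h : z ≠ z') (q : PP) :
    ¬ Forces q fun U => (rname (kc z)).val U = (rname (kc z')).val U := by
  classical
  intro hq
  have hne : kc z' ≠ kc z := fun e => h (congrArg Co.z e).symm
  obtain ⟨n, hn⟩ := exists_bound q.1
  obtain ⟨c, c1, c2, -⟩ := exists_pext q.2 (Set.toFinite {kc z, kc z'}) (fun _ => n + 1)
    fun d => if d = kc z then {n} else ∅
  have r1 : Rd (c (kc z)) n true := by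
    rw [c2 _ (by simp)]
    exact ⟨by simp, by simp [mem_pext (hn _)]⟩
  have r2 : Rd (c (kc z')) n false := by
    rw [c2 _ (by simp)]
    exact ⟨by simp, by simp [mem_pext (hn _), hne]⟩
  obtain ⟨U, hU⟩ := exists_gen (P := PP) ⟨c, c1.refl⟩
  have g1 := forces_rd (d := kc z) (s := ⟨c, c1.refl⟩) rnd_bot_lt row_bot_lt r1 U hU
  have g2 := forces_rd (d := kc z') (s := ⟨c, c1.refl⟩) rnd_bot_lt row_bot_lt r2 U hU
  beta_reduce at g1 g2
  rw [fapp hq c1 hU, g2] at g1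
  simp at g1

instance : Uncountable Lam := aleph0_lt_mk_iff.1 (k3_inf.trans_lt k3_lt_Lam)

theorem not_cov_cN (p : PP) : ¬ Cov k3 p cN := fun h => by
  obtain ⟨a, a1, a2⟩ := exists_row_gt row_bot_lt
  refine not_cov_self Function.injective_id k3_lt_Lam p (h.of_le (forces_leCard
    (fun z : Lam => XN fun _ => z) (fun z => rname (kc (nd (fun _ => z) ⟨a, a2⟩)))
    (fun _ _ _ h => h.exists_fam) (fun _ => Forces.of_forall (rname_mem _) p)
    fun z z' h q _ => rname_ne (fun e => h ?_) q))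
  exact (lev_nd (fun _ => z) ⟨a, a2⟩ a1).symm.trans
    ((congrArg (lev · ⊥) e).trans (lev_nd (fun _ => z') ⟨a, a2⟩ a1))

theorem lt_of_cov {U : Gen PP} {a b : Name PP} {Φ : Gen PP → Prop} [Clopen Φ] (hU : Φ U)
    {κ : Cardinal.{0}} (h1 : ∀ p, Forces p Φ → Cov κ p a) (h2 : ∀ p, Forces p Φ → ¬ Cov κ p b) :
    LtCard Mod.mem (a.val U) (b.val U) := ltCard_of fun h => by
  obtain ⟨p, hp⟩ := Ultrafilter.nonempty_of_mem
    (truth (Φ := fun U : Gen PP => Φ U ∧ LeCard Mod.mem (b.val U) (a.val U)) ⟨hU, h⟩)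
  exact h2 p (Forces.imp hp fun _ h => h.1)
    ((h1 p (Forces.imp hp fun _ h => h.1)).of_le (Forces.imp hp fun _ h => h.2))

theorem not_cov_C0 (p : PP) : ¬ Cov k2 p C0 := fun h => not_covW h (Forces.of_forall covW_C0 p)

theorem not_cov_A0 (p : PP) : ¬ Cov ℵ₀ p A0 :=
  not_cov_self exists_emb.some.injective (mk_W1 ▸ aleph0_lt_aleph_one) p

theorem sizes (U : Gen PP) : IsNext Mod.mem (wN.val U) (A0.val U) ∧
    IsNext Mod.mem (A0.val U) ((unionName A0).val U) ∧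
    IsNext Mod.mem ((unionName A0).val U) (C0.val U) := by
  have a1 : ∀ p, Cov (Order.succ ℵ₀) p A0 := fun p => cov_fam (succ_aleph0 ▸ mk_W1.le) _ p
  exact ⟨Btw.isNext (fun p => cov_fam (by simp) _ p) (fun _ _ => Btw.forces_ctbl) a1 not_cov_A0 U,
    Btw.isNext' a1 not_cov_A0 (succ_aleph0 ▸ cov_union) (succ_aleph0 ▸ not_cov_union) U,
    Btw.isNext' cov_union not_cov_union cov_C0 not_cov_C0 U⟩

/-- countable unions of meager-additive sets are meager-additive -/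
theorem not_addW {p : PP} {F : Name PP} (h : Cov ℵ₀ p F) :
    ¬ Forces p fun U => AddW Mod.mem (wN.val U) (cN.val U) (F.val U) := by
  intro h'
  obtain ⟨S, hS⟩ := Forces.exists_name (h'.imp fun U h => h.2)
  obtain ⟨ι, h1, d, h2⟩ := h
  have := mk_le_aleph0_iff.1 h1
  obtain ⟨g, hg⟩ := exists_surjective_nat (Option ι × ℕ)
  have key : Forces p fun U => MAdd Mod.mem (wN.val U) (cN.val U) (S.val U) := by
    unfold MAdd
    refine ((h'.and hS).imp fun U h z hz => ?_).and (forces_forall fun A => forces_imp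
      fun q hq hA => ⟨q, le_rfl, forces_forall fun R => forces_imp fun q' hq' hR => ⟨q', le_rfl, ?_⟩⟩)
    · obtain ⟨X, x1, x2⟩ := (h.2.1 z).1 hz
      exact (h.1.1 X x1).1 z x2
    choose N N1 N2 using fun o : Option ι => meager_code (sumN (o.elim cN d) A)
    refine meager_of (N := fun k => N (g k).1 (g k).2) (fun k => N1 _ _)
      (hR.imp fun U h z hz => ((h z).1 hz).1) fun z t ht hz => ?_
    have ht' := ht.trans (hq'.trans hq)
    have hz' := ((hR.mono ht).and hz).imp fun U h => (h.1 _).1 h.2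
    obtain ⟨x, hx⟩ := Forces.exists_name (hz'.imp fun U h => h.2)
    obtain ⟨X, hX⟩ := Forces.exists_name (((hS.mono ht').and hx).imp fun U h => (h.1.1 _).1 h.2.1)
    obtain ⟨r, r1, i, r2⟩ := h2 X t ht' (hX.imp fun U h => h.1)
    obtain ⟨r', r3, n, r4⟩ := N2 (some i) z r fun U hU => by
      have e : (d i).val U = X.val U := (r2 U hU).symm
      refine ⟨?_, (mem_sumN _ _ U _).2 ⟨(fapp hz' r1 hU).1, _, e ▸ (fapp hX r1 hU).2,
        (fapp hx r1 hU).2⟩⟩
      exact (e ▸ (fapp h' (r1.trans ht') hU).1 _ (fapp hX r1 hU).1 :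
        MAdd Mod.mem (wN.val U) (cN.val U) ((d i).val U)).2 _
          (fapp hA (r1.trans (ht.trans hq')) hU) _ (mem_sumN _ _ U)
    obtain ⟨k, hk⟩ := hg (some i, n)
    exact ⟨r', r3.trans r1, k, by simp only [hk]; exact r4⟩
  exact Forces.not_false ((key.and hS).imp fun _ h => h.2.2 h.1)

theorem main (U : Gen PP) : ∃ a n c f : Mod U,
    IsLeastSize Mod.mem (AddW Mod.mem (wN.val U) (cN.val U)) a ∧
    IsLeastSize Mod.mem (NonW Mod.mem (wN.val U) (cN.val U)) n ∧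
    IsLeastSize Mod.mem (CovW Mod.mem (wN.val U) (cN.val U)) c ∧
    IsLeastSize Mod.mem (CofW Mod.mem (wN.val U) (cN.val U)) f ∧
    EqCard Mod.mem a (A0.val U) ∧ EqCard Mod.mem n ((unionName A0).val U) ∧
    EqCard Mod.mem c (C0.val U) ∧ LtCard Mod.mem a n ∧ LtCard Mod.mem n c ∧ LtCard Mod.mem c f ∧
    LtCard Mod.mem c (cN.val U) ∧ LtCard Mod.mem (cN.val U) f := by
  obtain ⟨a, ha⟩ := exists_least (fun U => AddW Mod.mem (wN.val U) (cN.val U)) U ⟨_, addW_A0 U⟩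
  obtain ⟨n, hn⟩ := exists_least (fun U => NonW Mod.mem (wN.val U) (cN.val U)) U ⟨_, nonW_union U⟩
  obtain ⟨c, hc⟩ := exists_least (fun U => CovW Mod.mem (wN.val U) (cN.val U)) U ⟨_, covW_C0 U⟩
  obtain ⟨f, hf⟩ := exists_least (fun U => CofW Mod.mem (wN.val U) (cN.val U)) U (exists_cofW U)
  obtain ⟨a, rfl⟩ := a.exists_name
  obtain ⟨n, rfl⟩ := n.exists_name
  obtain ⟨c, rfl⟩ := c.exists_name
  obtain ⟨f, rfl⟩ := f.exists_name
  have b1 := ha.2 _ (addW_A0 U)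
  have b2 := hn.2 _ (nonW_union U)
  have b3 := hc.2 _ (covW_C0 U)
  have d1 : LeCard Mod.mem (A0.val U) (a.val U) :=
    Btw.transfer (Φ := fun U : Gen PP => AddW Mod.mem (wN.val U) (cN.val U) (a.val U))
      (Ψ := fun U : Gen PP => LeCard Mod.mem (A0.val U) (a.val U))
      (fun p hp => Btw.forces_le (κ := Order.succ ℵ₀) (cov_fam (succ_aleph0 ▸ mk_W1.le) _ p)
        fun t ht μ g1 g2 => not_addW (Btw.cov_mono g2 (Order.le_of_lt_succ g1)) (hp.mono ht)) ha.1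
  have d2 : LeCard Mod.mem ((unionName A0).val U) (n.val U) :=
    Btw.transfer (Φ := fun U : Gen PP => NonW Mod.mem (wN.val U) (cN.val U) (n.val U))
      (Ψ := fun U : Gen PP => LeCard Mod.mem ((unionName A0).val U) (n.val U))
      (fun p hp => Btw.forces_le (cov_union p) fun t ht μ g1 g2 => Forces.not_false
        (((hp.mono ht).and (mAdd_of_cov (Btw.cov_mono g2 (Order.le_of_lt_succ g1))
          ((hp.mono ht).imp fun _ h => h.1))).imp fun _ h => h.1.2 h.2)) hn.1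
  have d3 : LeCard Mod.mem (C0.val U) (c.val U) :=
    Btw.transfer (Φ := fun U : Gen PP => CovW Mod.mem (wN.val U) (cN.val U) (c.val U))
      (Ψ := fun U : Gen PP => LeCard Mod.mem (C0.val U) (c.val U))
      (fun p hp => Btw.forces_le (cov_C0 p) fun t ht μ g1 g2 =>
        not_covW (Btw.cov_mono g2 (Order.le_of_lt_succ g1)) (hp.mono ht)) hc.1
  have key : ∀ {κ : Cardinal.{0}} {x y u v : Name PP}, (∀ p, Cov κ p u) → (∀ p, ¬ Cov κ p v) →
      LeCard Mod.mem (x.val U) (u.val U) → LeCard Mod.mem (v.val U) (y.val U) →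
      LtCard Mod.mem (x.val U) (y.val U) := fun {κ x y u v} g1 g2 g3 g4 =>
    lt_of_cov (Φ := fun U : Gen PP => LeCard Mod.mem (x.val U) (u.val U) ∧
      LeCard Mod.mem (v.val U) (y.val U)) ⟨g3, g4⟩ (fun p hp => (g1 p).of_le (hp.imp fun _ h => h.1))
      fun p hp h => g2 p (h.of_le (hp.imp fun _ h => h.2))
  refine ⟨_, _, _, _, ha, hn, hc, hf, ⟨b1, d1⟩, ⟨b2, d2⟩, ⟨b3, d3⟩,
    key (cov_fam mk_W1.le _) not_cov_union b1 d2, key cov_union not_cov_C0 b2 d3, ?_, ?_, ?_⟩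
  · exact lt_of_cov (Φ := fun U : Gen PP => LeCard Mod.mem (c.val U) (C0.val U) ∧
      CofW Mod.mem (wN.val U) (cN.val U) (f.val U)) ⟨b3, hf.1⟩
      (fun p hp => Btw.cov_mono ((cov_C0 p).of_le (hp.imp fun _ h => h.1)) k3_lt_Lam.le)
      fun p hp h => not_cofW h (hp.imp fun _ h => h.2)
  · exact lt_of_cov (Φ := fun U : Gen PP => LeCard Mod.mem (c.val U) (C0.val U)) b3
      (fun p hp => (cov_C0 p).of_le hp) fun p _ => not_cov_cN p
  · exact lt_of_cov (Φ := fun U : Gen PP => CofW Mod.mem (wN.val U) (cN.val U) (f.val U)) hf.1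
      (fun p _ => cov_cN p) fun p hp h => not_cofW h hp

end Pool.Agent.P.MP_0c5c88_lc.T
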