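import Pool.Agent.P.MP_0c5c88_lc.Sem1
import Pool.Agent.P.MP_0c5c88_lc.T.Amal

set_option autoImplicit false

/-! Codes of names and meager-additive sets in the extension by the matrix iteration. -/

open Pool.Agent.Lib.PosetForcing Cardinal

namespace Pool.Agent.P.MP_0c5c88_lc.T

/-- the forcing -/
abbrev PP : Type := LP ⊤ ⊤

/-- `ν` codes a name whose values satisfy `W` -/
def Code (W : PP → ℕ → V → Prop) (ν : Lam) : Prop :=
  (∀ g n v, (g, n, v) ∈ nm ν → ∃ hg : leR ⊤ ⊤ g g, W ⟨g, hg⟩ n v) ∧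
    ∀ (q : PP) n, ∃ r ≤ q, ∃ g v, (g, n, v) ∈ nm ν ∧ leR ⊤ ⊤ r.1 g

/-- the name coded by `ν` lives at level `(r, β)` -/
def WithinN (r : Rnd) (β : Row) (ν : Lam) : Prop := ∀ g n v, (g, n, v) ∈ nm ν → Within r β g

theorem WithinN.mono {r r' : Rnd} {β β' : Row} {ν : Lam} (h : WithinN r β ν) (h1 : r ≤ r')
    (h2 : β ≤ β') : WithinN r' β' ν := fun g n v hg => (h g n v hg).mono h1 h2

theorem exists_code {W : PP → ℕ → V → Prop} (h : ∀ q n, ∃ r ≤ q, ∃ v, W r n v) :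
    ∃ ν, Code W ν ∧ (nm ν).Countable := by
  choose S h1 h2 h3 using fun n => (ccc_LP ⊤ ⊤).exists_antichain {g | ∃ v, W g n v}
  have hc : {x : C × ℕ × V | ∃ g ∈ S x.2.1, g.1 = x.1 ∧ W g x.2.1 x.2.2}.Countable :=
    (Set.countable_iUnion fun n => ((h2 n).image Subtype.val).prod
      (Set.to_countable (Set.univ : Set (ℕ × V)))).mono fun x hx =>
        Set.mem_iUnion.2 ⟨x.2.1, Set.mk_mem_prod (hx.imp fun _ h => ⟨h.1, h.2.1⟩) (Set.mem_univ _)⟩
  obtain ⟨ν, hν⟩ := nm_surj hc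
  refine ⟨ν, ⟨fun g n v hg => ?_, fun q n => ?_⟩, hν ▸ hc⟩
  · rw [hν] at hg
    obtain ⟨g', -, rfl, g3⟩ := hg
    exact ⟨g'.2, g3⟩
  · obtain ⟨r, r1, r2⟩ := h q n
    obtain ⟨g, g1, s, g2, g3⟩ := h3 n r r2
    obtain ⟨v, hv⟩ := h1 n g1
    exact ⟨s, g3.trans r1, g.1, v, by rw [hν]; exact ⟨g, g1, rfl, hv⟩, g2⟩

theorem exists_within {ν : Lam} (h : (nm ν).Countable) :
    ∃ r β, r < ⊤ ∧ β < ⊤ ∧ WithinN r β ν := by
  have h1 : (⋃ x ∈ nm ν, Co.rnd '' Function.support x.1).Countable :=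
    h.biUnion fun x _ => (x.1.hasFiniteSupport.image _).countable
  have h2 : (⋃ x ∈ nm ν, (Co.row '' Function.support x.1 ∪ Co.row '' Men x.1)).Countable :=
    h.biUnion fun x _ => ((x.1.hasFiniteSupport.image _).union ((finite_Men _).image _)).countable
  obtain ⟨r, -, r1, r2⟩ := Rnd.bound _ ((le_aleph0_iff_set_countable.2 h1).trans k2_inf)
  obtain ⟨β, -, b1, b2⟩ := Row.bound _
    ((le_aleph0_iff_set_countable.2 h2).trans aleph0_lt_aleph_one.le)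
  exact ⟨r, β, r1, b1, fun g n v hg d d1 d2 => ⟨fun h0 =>
    ⟨r2 _ (Set.mem_biUnion hg ⟨d, h0, rfl⟩) d1, b2 _ (Set.mem_biUnion hg (Or.inl ⟨d, h0, rfl⟩)) d2⟩,
    fun α a1 a2 => b2 _ (Set.mem_biUnion hg (Or.inr ⟨_, ⟨d, α, a1, rfl⟩, rfl⟩)) a2⟩⟩

theorem Code.totV {W : PP → ℕ → V → Prop} {ν : Lam} (h : Code W ν) (r : Rnd) (β : Row) :
    TotV (leR r β) ν := by
  intro e he n
  obtain ⟨c, h1, h2⟩ := trunc he
  obtain ⟨s, g1, g, v, g2, g3⟩ := h.2 ⟨c, h1⟩ n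
  exact ⟨s.1, (leR.mono g1 le_top le_top).congr_right fun d d1 d2 => (h2 d d1 d2).symm, g, v, g2,
    g3.mono le_top le_top⟩

theorem Code.dec {W : PP → ℕ → V → Prop} {ν : Lam} (h : Code W ν) {r : Rnd} {β : Row}
    (h1 : WithinN r β ν) {e : PP} {n : ℕ} {v : V} (h2 : Dec (leR r β) e.1 ν n v) :
    ∃ e' ≤ e, ∃ g, e' ≤ g ∧ W g n v := by
  obtain ⟨e', g1, g, g2, g3⟩ := h2.exists_le e.2
  obtain ⟨hg, g4⟩ := h.1 g n v g2
  exact ⟨⟨e', g1.refl⟩, g1, ⟨g, hg⟩, le_of_within g1.refl g3 (h1 g n v g2), g4⟩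

/-- `q` decides the bit `n` of `x` -/
def BitW (x : Name PP) (q : PP) (n : ℕ) (v : V) : Prop :=
  ∃ b, v = bv b ∧ Forces q fun U => Bit U n (x.val U) ↔ b = true

/-- the real `x` has a code at level `(r, β)` -/
def CodedAt (r : Rnd) (β : Row) (x : Name PP) : Prop := ∃ ν, Code (BitW x) ν ∧ WithinN r β ν

theorem CodedAt.mono {r r' : Rnd} {β β' : Row} {x : Name PP} (h : CodedAt r β x) (h1 : r ≤ r')
    (h2 : β ≤ β') : CodedAt r' β' x := h.imp fun _ h => ⟨h.1, h.2.mono h1 h2⟩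

theorem exists_codedAt (x : Name PP) : ∃ r β, r < ⊤ ∧ β < ⊤ ∧ CodedAt r β x := by
  obtain ⟨ν, h1, h2⟩ := exists_code (W := BitW x) fun q n => by
    obtain ⟨r, hr, b, hb⟩ := exists_decide_lt (n + 1) (fun m U => Bit U m (x.val U)) q
    exact ⟨r, hr, _, b n, rfl, hb n (Nat.lt_succ_self n)⟩
  obtain ⟨r, β, g1, g2, g3⟩ := exists_within h2
  exact ⟨r, β, g1, g2, ν, h1, g3⟩

theorem Code.tot {x : Name PP} {ν : Lam} (h : Code (BitW x) ν) (r : Rnd) (β : Row) :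
    Tot (leR r β) ν := fun e he n => by
  obtain ⟨e', h1, g, v, h2, h3⟩ := h.totV r β e he n
  obtain ⟨-, b, rfl, -⟩ := h.1 g n v h2
  exact ⟨e', h1, g, b, h2, h3⟩

theorem Code.forces_bit {x : Name PP} {ν : Lam} (h : Code (BitW x) ν) {r : Rnd} {β : Row}
    (h1 : WithinN r β ν) {e : PP} {n : ℕ} {b : Bool} (h2 : Dec (leR r β) e.1 ν n (bv b)) :
    Forces e fun U => Bit U n (x.val U) ↔ b = true := by
  refine Forces.of_dn fun q hq => ?_
  obtain ⟨e', g1, g, g2, b', g3, g4⟩ := h.dec h1 (e := q)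
    (h2.mono (isRel_leR _ _) (leR.mono hq le_top le_top))
  exact ⟨e', g1, bv_inj g3 ▸ g4.mono g2⟩

/-- the real added at a coordinate -/
noncomputable def rname (d : Co) : Name PP :=
  .mk {x : PP × ℕ // Rd (x.1.1 d) x.2 true} (fun x => natName x.1.2) fun x => x.1.1

theorem rname_mem (d : Co) (U : Gen PP) : Mod.mem ((rname d).val U) (cN.val U) :=
  mem_cN.2 (forall_mem (b := rname d) (Φ := fun U x => Mod.mem x (wN.val U))
    (fun _ q _ => ⟨q, le_rfl, Forces.of_forall (natName_mem_omega _) q⟩) U)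

theorem forces_rd {d : Co} (h1 : d.rnd < ⊤) (h2 : d.row < ⊤) {s : PP} {n : ℕ} {b : Bool}
    (h : Rd (s.1 d) n b) : Forces s fun U => Bit U n ((rname d).val U) ↔ b = true := by
  cases b with
  | true => exact (forces_el_mem (b := rname d) ⟨(s, n), h⟩ le_rfl).imp fun U h => iff_of_true h rfl
  | false =>
    refine (forces_not_iff.2 fun t ht h3 => ?_).imp fun U h => iff_of_false h (by simp)
    obtain ⟨t', g1, ⟨⟨g, m⟩, g2⟩, g3, g4⟩ := h3.exists_el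
    obtain rfl : n = m := g4.natName_inj
    have k1 := (g2.soft (leR.soft g3 h1 h2)).2
    have k2 := (h.soft (leR.soft (g1.trans ht) h1 h2)).2
    simp [k1] at k2

theorem forces_agr {d : Co} (h1 : d.rnd < ⊤) (h2 : d.row < ⊤) {s : PP} {a b : ℕ} {u : Finset ℕ}
    (h3 : b ≤ (s.1 d).t) (h4 : ∀ m, a ≤ m → m < b → (m ∈ (s.1 d).y ↔ m ∈ u)) :
    Forces s fun U => Agr a b u U ((rname d).val U) := fun U hU m m1 m2 => by
  rw [fapp (forces_rd h1 h2 (n := m) (b := decide (m ∈ u))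
    ⟨m1.trans_le h3, by simpa using h4 m m2 m1⟩) le_rfl hU]
  simp

theorem codedAt_rname {d : Co} (h0 : d.rnd = ⊥) {r : Rnd} {β : Row} (h1 : ⊥ < r) (h2 : d.row < β) :
    CodedAt r β (rname d) := by
  classical
  have g1 : d.rnd < ⊤ := h0.trans_lt rnd_bot_lt
  have g2 : d.row < ⊤ := h2.trans_le le_top
  let f : ℕ × Finset ℕ → C := fun x => Finsupp.single d ⟨x.1, x.2, ∅, ∅, ∅⟩
  have f1 : ∀ x, f x d = ⟨x.1, x.2, ∅, ∅, ∅⟩ := fun x => Finsupp.single_eq_same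
  have f2 : ∀ x d', d' ≠ d → f x d' = 0 := fun x d' h => Finsupp.single_eq_of_ne h
  have f3 : ∀ x, leR ⊤ ⊤ (f x) (f x) := fun x => leR_of_soft fun d' _ _ => ⟨by
    by_cases h : d' = d
    · rw [h, f1]
      exact ⟨fun _ h => absurd h (Finset.notMem_empty _), fun _ h => absurd h (Finset.notMem_empty _),
        fun _ h => absurd h (Finset.notMem_empty _)⟩
    · rw [f2 x d' h]
      exact Val.zero _ _, Soft.refl _ _, subset_rfl⟩
  obtain ⟨ν, hν⟩ := nm_surj (S := {x | ∃ y b, x.1 = f y ∧ x.2.2 = bv b ∧ Rd (f y d) x.2.1 b})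
    (((Set.countable_range f).prod (Set.to_countable (Set.univ : Set (ℕ × V)))).mono
      fun x hx => Set.mk_mem_prod (hx.imp fun _ h => h.elim fun _ h => h.1.symm) (Set.mem_univ _))
  refine ⟨ν, ⟨fun g n v hg => ?_, fun q n => ?_⟩, fun g n v hg d' _ _ => ?_⟩
  · rw [hν] at hg
    obtain ⟨y, b, rfl, k2, k3⟩ := hg
    exact ⟨f3 y, b, k2, forces_rd g1 g2 k3⟩
  · obtain ⟨e, k1, b, k2⟩ := exists_rd (x := d) q.2 n
    refine ⟨⟨e, k1.refl⟩, k1, f ((e d).t, (e d).y), bv b, ?_, leR_iff.2 fun d' d1 d2 =>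
      ⟨k1.val d1 d2, ?_⟩⟩
    · rw [hν]
      exact ⟨_, b, rfl, rfl, by rw [f1]; exact k2⟩
    · by_cases h : d' = d
      · subst h
        rw [f1]
        exact Ext.of_soft ⟨le_rfl, fun _ _ => Iff.rfl, Finset.empty_subset _, Finset.empty_subset _,
          fun _ h => absurd h (Finset.notMem_empty _)⟩
          fun B hB => absurd ((k1.val d1 d2).blk B hB).1 h0.not_gt
      · rw [f2 _ d' h]
        exact Ext.zero _ _ _ _ _
  · rw [hν] at hg
    obtain ⟨y, b, rfl, -⟩ := hg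
    by_cases h : d' = d
    · subst h
      exact ⟨fun _ => ⟨h0.trans_lt h1, h2⟩, fun α hα => by simp [f1] at hα⟩
    · simp [f2 _ d' h]

theorem Agr.congr {a b : ℕ} {u u' : Finset ℕ} {U : Gen PP} {z : Mod U} (h : Agr a b u U z)
    (h' : ∀ m < b, a ≤ m → (m ∈ u ↔ m ∈ u')) : Agr a b u' U z :=
  fun m m1 m2 => (h m m1 m2).trans (h' m m1 m2)

/-- the reals that differ from the real added at `d` on each block that starts after `k` -/
noncomputable def psi (d : Co) (k : ℕ) : Name PP :=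
  .mk {x : (cN : Name PP).idx × PP // ∀ r ≤ x.2, ∀ B ∈ (r.1 d).E, k ≤ B.1 →
      ¬ Forces r fun U => Agr B.1 B.2 (r.1 d).y U ((cN.el x.1).val U)}
    (fun x => cN.el x.1.1) fun x => x.1.2

theorem psi_elim {d : Co} (h1 : d.rnd < ⊤) (h2 : d.row < ⊤) {k : ℕ} {p : PP} {z : Name PP}
    (h : Forces p fun U => Mod.mem (z.val U) ((psi d k).val U)) {B : ℕ × ℕ} (h3 : B ∈ (p.1 d).E)
    (h4 : k ≤ B.1) : ¬ Forces p fun U => Agr B.1 B.2 (p.1 d).y U (z.val U) := by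
  intro h5
  obtain ⟨s, g1, ⟨⟨i, q⟩, g2⟩, g3, g4⟩ := h.exists_el
  have g5 := leR.soft g1 h1 h2
  refine g2 s g3 B (g5.E h3) h4 fun U hU => ?_
  have := fapp h5 g1 hU
  rw [fapp g4 le_rfl hU] at this
  exact Agr.congr this fun m m1 _ => (g5.y m (m1.trans_le ((p.2.val h1 h2).blk B h3).2)).symm

theorem psi_intro {d : Co} {k : ℕ} {p : PP} {z : Name PP}
    (h : Forces p fun U => Mod.mem (z.val U) (cN.val U)) (h' : ∀ r ≤ p, ∀ B ∈ (r.1 d).E, k ≤ B.1 →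
      ¬ Forces r fun U => Agr B.1 B.2 (r.1 d).y U (z.val U)) :
    Forces p fun U => Mod.mem (z.val U) ((psi d k).val U) := by
  refine Forces.of_dn fun q hq => ?_
  obtain ⟨s, g1, i, -, g3⟩ := (h.mono hq).exists_el
  refine ⟨s, g1, (g3.and (forces_el_mem (b := psi d k) ⟨(i, s), fun r r1 B b1 b2 b3 =>
    h' r (r1.trans (g1.trans hq)) B b1 b2 fun U hU => ?_⟩ le_rfl)).imp fun U h => h.1 ▸ h.2⟩
  beta_reduce
  rw [fapp g3 r1 hU]
  exact b3 U hU

theorem psi_nwd {d : Co} (h0 : ⊥ < d.rnd) (ht : TotV (lo d) d.lam) (h1 : d.rnd < ⊤)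
    (h2 : d.row < ⊤) (k : ℕ) (U : Gen PP) :
    Nwd Mod.mem (wN.val U) (cN.val U) ((psi d k).val U) := by
  refine nwd_of (fun q k0 s => ?_) U
  obtain ⟨c, g1, B, g2, g3⟩ := exists_block h0 ht h1 h2 q.2 (max k k0)
  refine ⟨⟨c, g1.refl⟩, g1, B.2, s.filter (· < k0) ∪ (c d).y.filter (k0 ≤ ·),
    fun m hm => by simp [hm, hm.not_ge], forces_forall fun z => forces_imp fun r r1 _ => ⟨r, le_rfl,
      forces_imp fun t t1 t2 => ⟨t, le_rfl, forces_not_iff.2 fun t' t3 t4 => ?_⟩⟩⟩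
  have g5 := leR.soft (t3.trans (t1.trans r1)) h1 h2
  refine psi_elim h1 h2 t4 (g5.E g2) ((le_max_left _ _).trans g3) fun U hU m m1 m2 => ?_
  have m3 : k0 ≤ m := (le_max_right _ _).trans (g3.trans m2)
  rw [fapp t2 t3 hU m m1 (Nat.zero_le _), g5.y m (m1.trans_le ((g1.val h1 h2).blk B g2).2)]
  simp [m3, m3.not_gt]

/-- the real added at `d` matches `x` on all blocks added below some extension -/
def Target (d : Co) (x : Name PP) (q : PP) : Prop :=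
  ∃ r ≤ q, ∀ s ≤ r, ∀ B ∈ (s.1 d).E, B ∉ (r.1 d).E → Match (lo d) s.1 d.lam
    (fun n β => Forces s fun U => Bit U n (x.val U) ↔ β = true) B.1 B.2 (s.1 d).y

theorem mAdd_of {X : Name PP} {p : PP} (h1 : Forces p fun U => IsSub Mod.mem (X.val U) (cN.val U))
    (h2 : ∀ ν r β, r < ⊤ → β < ⊤ → ∃ d : Co, d.lam = ν ∧ r < d.rnd ∧ d.rnd < ⊤ ∧ β ≤ d.row ∧
      d.row < ⊤ ∧ ∀ x : Name PP, ∀ q ≤ p, (Forces q fun U => Mod.mem (x.val U) (X.val U)) →
        Target d x q) :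
    Forces p fun U => MAdd Mod.mem (wN.val U) (cN.val U) (X.val U) := by
  unfold MAdd
  refine h1.and (forces_forall fun A => forces_imp fun q hq hA => ⟨q, le_rfl,
    forces_forall fun S => forces_imp fun q' hq' hS => ⟨q', le_rfl, ?_⟩⟩)
  obtain ⟨N, N1, N2⟩ := meager_code A
  obtain ⟨ν, n1, n2⟩ := exists_code (W := Works N) (works_dense N1)
  obtain ⟨r0, β0, w1, w2, w3⟩ := exists_within n2
  obtain ⟨d, rfl, d1, d2, d3, d4, d5⟩ := h2 ν r0 β0 w1 w2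
  have w4 := w3.mono d1.le d3
  refine meager_of (psi_nwd (bot_le.trans_lt d1) (n1.totV _ _) d2 d4)
    (hS.imp fun U h z hz => ((h z).1 hz).1) fun z t ht hz => ?_
  have hz' := ((hS.mono ht).and hz).imp fun U h => (h.1 _).1 h.2
  obtain ⟨x, hx⟩ := Forces.exists_name (hz'.imp fun U h => h.2)
  obtain ⟨a, ha⟩ := Forces.exists_name (hx.imp fun U h => h.2)
  obtain ⟨t1, g1, n, g2⟩ := N2 a t ((hA.mono (ht.trans hq')).and (ha.imp fun U h => h.1))
  obtain ⟨t2, g3, g4⟩ := d5 x t1 (g1.trans (ht.trans (hq'.trans hq))) ((hx.mono g1).imp fun U h => h.1)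
  refine ⟨t2, g3.trans g1, max n ((t2.1 d).E.sup Prod.fst + 1), psi_intro
    ((hz'.mono (g3.trans g1)).imp fun U h => h.1) fun s s1 B b1 b2 b3 => ?_⟩
  obtain ⟨a', b', u, m1, m2, m3, m4⟩ := g4 s s1 B b1 fun h => by
    have := Finset.le_sup (f := Prod.fst) h
    omega
  obtain ⟨s', k1, g, k2, k3⟩ := n1.dec w4 m3
  have k4 := k1.trans (s1.trans (g3.trans g1))
  obtain ⟨U, hU⟩ := exists_gen s'
  refine fapp k3 k2 hU _ ((fapp hA (k4.trans (ht.trans hq')) hU).1 _ (fapp ha k4 hU).1)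
    (fun m q1 q2 => ?_) n (by omega) (fapp g2 (k1.trans (s1.trans g3)) hU)
  obtain ⟨β, e1, e2⟩ := m4 m q2 q1
  have e3 := (fapp ha k4 hU).2 _ (natName_mem_omega m U)
  have e4 := fapp e1 k1 hU
  have e5 := fapp b3 k1 hU m (q1.trans_le m2) (m1.trans q2)
  unfold Bit at e4 e5 ⊢
  dsimp only
  tauto

theorem exists_addF (q : PP) (d : Co) {b : Y} (hb : Val (lo d) d b) :
    ∃ r ≤ q, r.1 d = addF (q.1 d) b := by
  classical
  have : leR ⊤ ⊤ (q.1.update d (addF (q.1 d) b)) q.1 := leR_of_soft fun d' d1 d2 => by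
    by_cases h : d' = d
    · subst h
      simpa using ⟨(q.2.val d1 d2).addF hb, soft_addF _ _ _⟩
    · simpa [h] using ⟨q.2.val d1 d2, Soft.refl _ _⟩
  exact ⟨⟨_, this.refl⟩, this, by simp⟩

theorem target_coded {d : Co} (h1 : d.rnd < ⊤) (h2 : d.row < ⊤) {x : Name PP}
    (h : CodedAt d.rnd d.row x) (q : PP) : Target d x q := by
  obtain ⟨ν, n1, n2⟩ := h
  obtain ⟨r, r1, r2⟩ := exists_addF q d (b := ⟨0, ∅, ∅, {ν}, ∅⟩)
    ⟨fun ν' h => Finset.mem_singleton.1 h ▸ n1.tot _ _, fun _ h => absurd h (Finset.notMem_empty _),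
      fun _ h => absurd h (Finset.notMem_empty _)⟩
  exact ⟨r, r1, fun s s1 B b1 b2 => (((leR.ext s1 h1 h2).2 B b1 b2).m0 ν
    (r2 ▸ mem_addF0.2 (Or.inr (Finset.mem_singleton_self _)))).imp (fun _ _ h => h)
    (fun n β _ _ h => n1.forces_bit n2 h) le_rfl le_rfl fun _ _ _ => Iff.rfl⟩

theorem target_xc {d : Co} (h0 : ⊥ < d.rnd) (h1 : d.rnd < ⊤) (h2 : d.row < ⊤) {α : Row × Z}
    (h3 : α.1 < ⊤) (h4 : d.row ≤ α.1 → Ab d α) (q : PP) : Target d (rname (xc α)) q := by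
  rcases lt_or_ge α.1 d.row with h | h
  · exact target_coded h1 h2 (codedAt_rname rfl h0 h) q
  obtain ⟨r, r1, r2⟩ := exists_addF q d (b := ⟨0, ∅, ∅, ∅, {α}⟩)
    ⟨fun _ h => absurd h (Finset.notMem_empty _),
      fun _ h' => ⟨Finset.mem_singleton.1 h' ▸ h4 h, h0⟩,
      fun _ h => absurd h (Finset.notMem_empty _)⟩
  exact ⟨r, r1, fun s s1 B b1 b2 => (((leR.ext s1 h1 h2).2 B b1 b2).m1 α
    (r2 ▸ mem_addF1.2 (Or.inr (Finset.mem_singleton_self _))) h3).imp (fun _ _ h => h)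
    (fun n β _ _ h => h.1 ▸ forces_rd (d := xc α) rnd_bot_lt h3 h.2) le_rfl le_rfl
    fun _ _ _ => Iff.rfl⟩

theorem Target.congr {d : Co} {x y : Name PP} {q q' : PP} (h : Target d y q) (h0 : q ≤ q')
    (h' : Forces q fun U => x.val U = y.val U) : Target d x q' := by
  obtain ⟨r, r1, r2⟩ := h
  refine ⟨r, r1.trans h0, fun s s1 B b1 b2 => (r2 s s1 B b1 b2).imp (fun _ _ h => h)
    (fun n β _ _ h U hU => ?_) le_rfl le_rfl fun _ _ _ => Iff.rfl⟩
  beta_reduce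
  rw [fapp h' (s1.trans r1) hU]
  exact h U hU

theorem exists_rnd_gt {r : Rnd} (h : r < ⊤) : ∃ r', r < r' ∧ r' < ⊤ := by
  obtain ⟨a, -, h1, h2⟩ := Rnd.bound {r} (by simpa using one_le_aleph0.trans k2_inf)
  exact ⟨a, h2 r rfl h, h1⟩

theorem mAdd_of_coded {X : Name PP} {p : PP} {r : Rnd} {β : Row} (h1 : r < ⊤) (h2 : β < ⊤)
    (h3 : Forces p fun U => IsSub Mod.mem (X.val U) (cN.val U))
    (h4 : ∀ x : Name PP, ∀ q ≤ p, (Forces q fun U => Mod.mem (x.val U) (X.val U)) →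
      ∃ q' ≤ q, ∃ y, CodedAt r β y ∧ Forces q' fun U => x.val U = y.val U) :
    Forces p fun U => MAdd Mod.mem (wN.val U) (cN.val U) (X.val U) := by
  refine mAdd_of h3 fun ν r' β' g1 g2 => ?_
  obtain ⟨r1, g3, g4⟩ := exists_rnd_gt (max_lt h1 g1)
  refine ⟨⟨r1, max β β', Classical.arbitrary Z, ν⟩, rfl, (le_max_right _ _).trans_lt g3, g4,
    le_max_right _ _, max_lt h2 g2, fun x q hq hx => ?_⟩
  obtain ⟨q', k1, y, k2, k3⟩ := h4 x q hq hx
  exact (target_coded g4 (max_lt h2 g2) (k2.mono ((le_max_left _ _).trans g3.le) (le_max_left _ _))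
    q').congr k1 k3

/-- the generic meager-additive sets -/
noncomputable def XN (f : Row → Lam) : Name PP :=
  fam fun α : {α : Row // α < ⊤} => rname (xc (α.1, nd f α))

theorem mAdd_XN (f : Row → Lam) (U : Gen PP) :
    MAdd Mod.mem (wN.val U) (cN.val U) ((XN f).val U) := by
  refine of_forces_all (Φ := fun U => MAdd Mod.mem (wN.val U) (cN.val U) ((XN f).val U))
    (fun p => ⟨p, le_rfl, mAdd_of (Forces.of_forall (forall_mem_fam
      (Φ := fun U x => Mod.mem x (cN.val U)) fun _ U => rname_mem _ U) p) fun ν r β g1 g2 => ?_⟩) U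
  obtain ⟨r1, g3, g4⟩ := exists_rnd_gt g1
  refine ⟨⟨r1, β, nd f ⟨β, g2⟩, ν⟩, rfl, g3, g4, le_rfl, g2, fun x q _ hx => ?_⟩
  obtain ⟨q', k1, α, k2⟩ := hx.exists_fam
  exact (target_xc (d := ⟨r1, β, nd f ⟨β, g2⟩, ν⟩) (α := (α.1, nd f α)) (bot_le.trans_lt g3) g4 g2
    α.2 (fun h => ⟨h, fun b hb => (lev_nd f α (hb.trans_le h)).trans
      (lev_nd f ⟨β, g2⟩ hb).symm⟩) q').congr k1 k2

/-- the reals of the intermediate extensions -/
noncomputable def YN (r : Rnd) (β : Row) : Name PP :=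
  fam fun S : {S : Set (PP × ULift.{0} ℕ) // CodedAt r β (niceReal S)} => niceReal S.1

theorem mAdd_YN {r : Rnd} {β : Row} (h1 : r < ⊤) (h2 : β < ⊤) (U : Gen PP) :
    MAdd Mod.mem (wN.val U) (cN.val U) ((YN r β).val U) := by
  refine of_forces_all (Φ := fun U => MAdd Mod.mem (wN.val U) (cN.val U) ((YN r β).val U))
    (fun p => ⟨p, le_rfl, mAdd_of_coded h1 h2 (Forces.of_forall (forall_mem_fam
      (Φ := fun U x => Mod.mem x (cN.val U)) fun S U => mem_cN.2 ?_) p) fun x q _ hx => ?_⟩) U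
  · exact forall_mem (b := niceReal S.1) (Φ := fun U x => Mod.mem x (wN.val U))
      (fun _ q _ => ⟨q, le_rfl, Forces.of_forall (natName_mem_omega _) q⟩) U
  · obtain ⟨q', k1, S, k2⟩ := hx.exists_fam
    exact ⟨q', k1, _, S.2, k2⟩

end Pool.Agent.P.MP_0c5c88_lc.T
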