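import Pool.Agent.P.MP_0c5c88_lc.Types

set_option autoImplicit false

/-! Index types and raw conditions of the matrix iteration along a tree. -/

open Cardinal

namespace Pool.Agent.P.MP_0c5c88_lc.T

/-- the sizes of the levels -/
noncomputable def mu : Row → Cardinal.{0} :=
  (wellFounded_lt (α := Row)).fix fun a ih =>
    2 ^ (k3 + Cardinal.sum fun b : {b : Row // b < a} => ih b.1 b.2)

theorem mu_eq (a : Row) :
    mu a = 2 ^ (k3 + Cardinal.sum fun b : {b : Row // b < a} => mu b.1) := by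
  rw [mu, WellFounded.fix_eq]

theorem k3_lt_mu (a : Row) : k3 < mu a := by
  rw [mu_eq]
  exact (self_le_add_right _ _).trans_lt (cantor _)

theorem mu_lt {a b : Row} (h : b < a) : mu b < mu a := by
  rw [mu_eq a]
  exact ((le_sum (fun b : {b : Row // b < a} => mu b.1) ⟨b, h⟩).trans
    (self_le_add_left _ _)).trans_lt (cantor _)

/-- codes of names, and values of branches -/
def Lam : Type := Σ a : {a : Row // a < ⊤}, (mu a.1).out

theorem exists_row_gt {a : Row} (h : a < ⊤) : ∃ b, a < b ∧ b < ⊤ := by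
  obtain ⟨b, -, h1, h2⟩ := Row.bound {a} (by simpa using one_le_aleph0.trans aleph0_lt_aleph_one.le)
  exact ⟨b, h2 a rfl h, h1⟩

theorem mu_lt_Lam {a : Row} (h : a < ⊤) : mu a < #Lam := by
  obtain ⟨b, h1, h2⟩ := exists_row_gt h
  refine (mu_lt h1).trans_le ?_
  rw [← mk_out (mu b)]
  exact mk_le_of_injective (f := fun x => (⟨⟨b, h2⟩, x⟩ : Lam)) fun x y hxy =>
    sigma_mk_injective (β := fun a : {a : Row // a < ⊤} => (mu a.1).out) (i := ⟨b, h2⟩) hxy

theorem row_bot_lt : (⊥ : Row) < ⊤ := by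
  obtain ⟨a, h1, h2, -⟩ := Row.bound ∅ (by simp)
  exact h1.trans h2

theorem rnd_bot_lt : (⊥ : Rnd) < ⊤ := by
  obtain ⟨a, h1, h2, -⟩ := Rnd.bound ∅ (by simp)
  exact h1.trans h2

theorem k3_lt_Lam : k3 < #Lam := (k3_lt_mu ⊥).trans (mu_lt_Lam row_bot_lt)

theorem inf_Lam : ℵ₀ ≤ #Lam := k3_inf.trans k3_lt_Lam.le

instance : Infinite Lam := aleph0_le_mk_iff.1 inf_Lam

theorem mk_fun_le {A : Type} (h : #A ≤ ℵ₁) : #(A → Lam) ≤ #Lam := by
  have h1 : ∀ a : {a : Row // a < ⊤}, #(A → {x : Lam // x.1.1 < a.1}) ≤ #((mu a.1).out) := by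
    intro a
    have h2 : #{x : Lam // x.1.1 < a.1} ≤ Cardinal.sum fun b : {b : Row // b < a.1} => mu b.1 := by
      have : (Cardinal.sum fun b : {b : Row // b < a.1} => mu b.1) =
          #(Σ b : {b : Row // b < a.1}, (mu b.1).out) := by simp
      rw [this]
      refine mk_le_of_surjective (f := fun y : Σ b : {b : Row // b < a.1}, (mu b.1).out =>
        (⟨⟨⟨y.1.1, y.1.2.trans a.2⟩, y.2⟩, y.1.2⟩ : {x : Lam // x.1.1 < a.1})) ?_
      rintro ⟨⟨⟨b, hb⟩, x⟩, hx⟩
      exact ⟨⟨⟨b, hx⟩, x⟩, rfl⟩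
    rw [mk_out, ← power_def, mu_eq]
    set s := k3 + Cardinal.sum fun b : {b : Row // b < a.1} => mu b.1 with hs
    have h3 : k3 ≤ s := self_le_add_right _ _
    have h4 : #{x : Lam // x.1.1 < a.1} ≤ 2 ^ s :=
      h2.trans ((self_le_add_left _ _).trans (cantor s).le)
    refine (power_le_power_right h4).trans ?_
    rw [← power_mul]
    refine power_le_power_left two_ne_zero ?_
    exact (mul_le_mul' le_rfl (h.trans (k1_lt.le.trans (k2_lt.le.trans h3)))).trans
      (mul_eq_self (k3_inf.trans h3)).le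
  have h5 : #(A → Lam) ≤ #(Σ a : {a : Row // a < ⊤}, (A → {x : Lam // x.1.1 < a.1})) := by
    refine mk_le_of_surjective (f := fun y : Σ a : {a : Row // a < ⊤},
      (A → {x : Lam // x.1.1 < a.1}) => fun t => (y.2 t).1) fun g => ?_
    obtain ⟨a, -, a1, a2⟩ := Row.bound (Set.range fun t => (g t).1.1) (mk_range_le.trans h)
    exact ⟨⟨⟨a, a1⟩, fun t => ⟨g t, a2 _ ⟨t, rfl⟩ (g t).1.2⟩⟩, rfl⟩
  refine h5.trans ?_
  rw [mk_sigma]
  exact (sum_le_sum _ _ h1).trans (mk_sigma _).ge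

theorem mk_Iio_row {a : Row} (h : a < ⊤) : #{b : Row // b < a} ≤ ℵ₁ := by
  obtain ⟨a, rfl⟩ := WithTop.ne_top_iff_exists.1 h.ne
  have h1 : #{b : Row // b < (a : WithTop k2.ord.ToType)} ≤ #(Set.Iio a) := by
    refine mk_le_of_surjective (f := fun y : Set.Iio a =>
      (⟨(y.1 : WithTop k2.ord.ToType), WithTop.coe_lt_coe.2 y.2⟩ :
        {b : Row // b < (a : WithTop k2.ord.ToType)})) ?_
    rintro ⟨b, hb⟩
    obtain ⟨b, rfl⟩ := WithTop.ne_top_iff_exists.1 (hb.trans h).ne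
    exact ⟨⟨b, WithTop.coe_lt_coe.1 hb⟩, rfl⟩
  exact h1.trans (Order.le_of_lt_succ
    ((mk_Iio_lt a (by simp)).trans_le (mk_ord_toType k2).le))

/-- the nodes of the tree -/
def Z : Type := Σ a : {a : Row // a < ⊤}, ({b : Row // b < a.1} → Lam)

/-- the value of a node at a row -/
noncomputable def lev (z : Z) (b : Row) : Lam := by
  classical
  exact if h : b < z.1.1 then z.2 ⟨b, h⟩ else Classical.arbitrary Lam

/-- the node of a branch at a row -/
def nd (f : Row → Lam) (a : {a : Row // a < ⊤}) : Z := ⟨a, fun b => f b.1⟩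

theorem lev_nd (f : Row → Lam) (a : {a : Row // a < ⊤}) {b : Row} (h : b < a.1) :
    lev (nd f a) b = f b := dif_pos h

theorem nd_congr {f g : Row → Lam} {a : {a : Row // a < ⊤}} (h : ∀ b < a.1, f b = g b) :
    nd f a = nd g a := congrArg (Sigma.mk a) (funext fun b => h b.1 b.2)

instance : Nonempty Z := ⟨nd (fun _ => Classical.arbitrary Lam) ⟨⊥, row_bot_lt⟩⟩

theorem mk_Row_le : #Row ≤ #Lam := (mk_Lv_le k2_inf).trans (k2_lt.le.trans k3_lt_Lam.le)

theorem mk_Z : #Z ≤ #Lam := by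
  refine (mk_sigma _).le.trans ((sum_le_sum _ (fun _ => #Lam)
    fun a => mk_fun_le (mk_Iio_row a.2)).trans ?_)
  rw [sum_const']
  exact (mul_le_mul' ((mk_subtype_le _).trans mk_Row_le) le_rfl).trans (mul_eq_self inf_Lam).le

/-- two different codes -/
noncomputable def la : Lam := (exists_pair_ne Lam).choose
/-- two different codes -/
noncomputable def lb : Lam := (exists_pair_ne Lam).choose_spec.choose

theorem la_ne : la ≠ lb := (exists_pair_ne Lam).choose_spec.choose_spec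

/-- coordinates of the matrix -/
@[ext] structure Co : Type where
  /-- round -/
  rnd : Rnd
  /-- row -/
  row : Row
  /-- node of the tree -/
  z : Z
  /-- code of the task -/
  lam : Lam

/-- values of a condition at a coordinate -/
@[ext] structure Y : Type where
  /-- length of the stem -/
  t : ℕ
  /-- the stem -/
  y : Finset ℕ
  /-- the blocks -/
  E : Finset (ℕ × ℕ)
  /-- promised names -/
  F0 : Finset Lam
  /-- promised points -/
  F1 : Finset (Row × Z)

instance : Zero Y := ⟨⟨0, ∅, ∅, ∅, ∅⟩⟩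

@[simp] theorem zero_t : (0 : Y).t = 0 := rfl
@[simp] theorem zero_y : (0 : Y).y = ∅ := rfl
@[simp] theorem zero_E : (0 : Y).E = ∅ := rfl
@[simp] theorem zero_F0 : (0 : Y).F0 = ∅ := rfl
@[simp] theorem zero_F1 : (0 : Y).F1 = ∅ := rfl

/-- raw conditions -/
abbrev C : Type := Co →₀ Y

theorem exists_nm : ∃ nm : Lam → Set (C × ℕ × V), ∀ S : Set (C × ℕ × V), S.Countable →
    ∃ l, nm l = S := by
  have hinf : ℵ₀ ≤ #Lam := inf_Lam
  have hRow : #Row ≤ #Lam := mk_Row_le
  have hRnd : #Rnd ≤ #Lam := (mk_Lv_le k3_inf).trans k3_lt_Lam.le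
  have hp : ∀ {A B : Type}, #A ≤ #Lam → #B ≤ #Lam → #(A × B) ≤ #Lam := fun h1 h2 => by
    rw [mk_prod, lift_id, lift_id]
    exact (mul_le_mul' h1 h2).trans (mul_eq_self hinf).le
  have hc : ∀ {A : Type} [Countable A], #A ≤ #Lam := mk_le_aleph0.trans hinf
  have hf : ∀ {A : Type}, #A ≤ #Lam → #(Finset A) ≤ #Lam := fun {A} h => by
    cases finite_or_infinite A with
    | inl _ => exact hc
    | inr _ => rwa [mk_finset_of_infinite]
  have hCo : #Co ≤ #Lam := (mk_le_of_injective (f := fun d : Co => (d.rnd, d.row, d.z, d.lam))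
    fun a b h => by simp only [Prod.mk.injEq] at h; exact Co.ext h.1 h.2.1 h.2.2.1 h.2.2.2).trans
    (hp hRnd (hp hRow (hp mk_Z le_rfl)))
  have hY : #Y ≤ #Lam := (mk_le_of_injective (f := fun a : Y => (a.t, a.y, a.E, a.F0, a.F1))
    fun a b h => by
      simp only [Prod.mk.injEq] at h
      exact Y.ext h.1 h.2.1 h.2.2.1 h.2.2.2.1 h.2.2.2.2).trans
    (hp hc (hp hc (hp hc (hp (hf le_rfl) (hf (hp hRow mk_Z))))))
  have : Infinite Co := Infinite.of_injective
    (fun l : Lam => (⟨⊥, ⊥, Classical.arbitrary Z, l⟩ : Co)) fun a b h => congrArg Co.lam h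
  have : Nontrivial Y := ⟨0, ⟨1, ∅, ∅, ∅, ∅⟩, fun h => absurd (congrArg Y.t h) (by simp)⟩
  have hC : #C ≤ #Lam := by
    rw [mk_finsupp_of_infinite]
    exact max_le hCo hY
  have hX : #(C × ℕ × V) ≤ #Lam := hp hC hc
  have h1 : #{t : Set (C × ℕ × V) // #t ≤ ℵ₀} ≤ #Lam := by
    refine (mk_bounded_set_le _ _).trans ((power_le_power_right (max_le hX hinf)).trans ?_)
    have := mk_fun_le (A := ℕ) (mk_nat.le.trans aleph0_lt_aleph_one.le)
    rwa [← power_def, mk_nat] at this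
  obtain ⟨e⟩ := (Cardinal.le_def _ _).1 h1
  have : Nonempty {t : Set (C × ℕ × V) // #t ≤ ℵ₀} := ⟨⟨∅, by simp⟩⟩
  refine ⟨fun l => (Function.invFun e l).1, fun S hS => ⟨e ⟨S, le_aleph0_iff_set_countable.2 hS⟩, ?_⟩⟩
  simp only [Function.leftInverse_invFun e.injective _]

/-- decoding of codes of names -/
noncomputable def nm : Lam → Set (C × ℕ × V) := exists_nm.choose

theorem nm_surj {S : Set (C × ℕ × V)} (h : S.Countable) : ∃ l, nm l = S :=
  exists_nm.choose_spec S h

/-- the diagonal argument of König -/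
theorem koenig {ι : Type} (h : #ι ≤ #Lam) (I : (Row → Lam) → ι) : ∃ (a : Row) (i : ι)
    (s : Row → Lam), a < ⊤ ∧ ¬ {ζ | ∃ g, (∀ b < a, g b = s b) ∧ g a = ζ ∧ I g = i}.Countable := by
  by_contra hc
  push Not at hc
  obtain ⟨e⟩ := (Cardinal.le_def _ _).1 h
  have h1 : ∀ (a : Row) (s : Row → Lam), ∃ ζ, a < ⊤ → ∀ g, (∀ b < a, g b = s b) → g a = ζ →
      (e (I g)).1.1 ≠ a := by
    intro a s
    by_cases ha : a < ⊤
    · have h2 : #(⋃ i : {i : ι // (e i).1.1 = a},
          {ζ | ∃ g, (∀ b < a, g b = s b) ∧ g a = ζ ∧ I g = i.1}) < #Lam := by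
        have h3 : #{i : ι // (e i).1.1 = a} ≤ mu a := by
          rw [← mk_out (mu a)]
          have h4 : #{x : Lam // x.1.1 = a} ≤ #(mu a).out := by
            refine mk_le_of_surjective (f := fun y : (mu a).out =>
              (⟨⟨⟨a, ha⟩, y⟩, rfl⟩ : {x : Lam // x.1.1 = a})) ?_
            rintro ⟨⟨⟨b, hb⟩, x⟩, rfl⟩
            exact ⟨x, rfl⟩
          exact (mk_le_of_injective (f := fun i : {i : ι // (e i).1.1 = a} =>
            (⟨e i.1, i.2⟩ : {x : Lam // x.1.1 = a}))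
            fun i j hij => Subtype.ext (e.injective (congrArg Subtype.val hij))).trans h4
        refine lt_of_le_of_lt (mk_iUnion_le_sum_mk.trans ((sum_le_sum _ (fun _ => ℵ₀)
          fun i : {i : ι // (e i).1.1 = a} =>
            le_aleph0_iff_set_countable.2 (hc a i.1 s ha)).trans ?_)) (mu_lt_Lam ha)
        rw [sum_const']
        exact (mul_le_mul' h3 (k3_inf.trans (k3_lt_mu a).le)).trans
          (mul_eq_self (k3_inf.trans (k3_lt_mu a).le)).le
      obtain ⟨ζ, hζ⟩ := (Set.ne_univ_iff_exists_notMem (⋃ i : {i : ι // (e i).1.1 = a},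
          {ζ | ∃ g, (∀ b < a, g b = s b) ∧ g a = ζ ∧ I g = i.1})).1 fun h4 => by
        rw [h4, mk_univ] at h2
        exact lt_irrefl _ h2
      exact ⟨ζ, fun _ g g1 g2 g3 => hζ (Set.mem_iUnion.2 ⟨⟨I g, g3⟩, g, g1, g2, rfl⟩)⟩
    · exact ⟨la, fun h => absurd h ha⟩
  choose F hF using h1
  classical
  let f : Row → Lam := (wellFounded_lt (α := Row)).fix fun a ih =>
    F a fun b => if h : b < a then ih b h else la
  have hf : ∀ a, f a = F a fun b => if b < a then f b else la := fun a =>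
    (wellFounded_lt (α := Row)).fix_eq _ a
  exact hF _ _ (e (I f)).1.2 f (fun b hb => (if_pos hb).symm) (hf _) rfl

end Pool.Agent.P.MP_0c5c88_lc.T
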